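import Mathlib

/-!
# RC-Clo: closing-off arguments for Valdivia compact spaces
-/

set_option autoImplicit false

open Set Topology Filter

namespace Pool.Agent.helper41.RC

section clo
variable {Γ : Type} (D : Finset Γ → Set Γ)

/-- one step of closing off -/
def stp (S : Set Γ) : Set Γ := S ∪ ⋃ (F : Finset Γ) (_ : ↑F ⊆ S), D F

/-- the closure under a finitary operation -/
def clo (S : Set Γ) : Set Γ := ⋃ n : ℕ, (stp D)^[n] S

theorem subset_clo (S : Set Γ) : S ⊆ clo D S := fun _ hx => mem_iUnion.2 ⟨0, hx⟩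

theorem stp_mono_iter (S : Set Γ) {m n : ℕ} (h : m ≤ n) : (stp D)^[m] S ⊆ (stp D)^[n] S := by
  induction n, h using Nat.le_induction with
  | base => exact Subset.rfl
  | succ n _ ih =>
    rw [Function.iterate_succ_apply']
    exact ih.trans subset_union_left

theorem clo_closed (S : Set Γ) (F : Finset Γ) (hF : ↑F ⊆ clo D S) : D F ⊆ clo D S := by
  classical
  have h1 : ∃ n : ℕ, ↑F ⊆ (stp D)^[n] S := by
    induction F using Finset.induction_on with
    | empty => exact ⟨0, by simp⟩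
    | insert a F _ ih =>
      rw [Finset.coe_insert] at hF
      obtain ⟨n, hn⟩ := ih ((subset_insert _ _).trans hF)
      obtain ⟨k, hk⟩ := mem_iUnion.1 (hF (mem_insert _ _))
      refine ⟨max n k, ?_⟩
      rw [Finset.coe_insert]
      exact insert_subset (stp_mono_iter D S (le_max_right _ _) hk)
        (hn.trans (stp_mono_iter D S (le_max_left _ _)))
  obtain ⟨n, hn⟩ := h1
  intro x hx
  refine mem_iUnion.2 ⟨n + 1, ?_⟩
  rw [Function.iterate_succ_apply']
  exact Or.inr (mem_iUnion₂.2 ⟨F, hn, hx⟩)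

theorem clo_min {S T : Set Γ} (hST : S ⊆ T) (hT : ∀ F : Finset Γ, ↑F ⊆ T → D F ⊆ T) :
    clo D S ⊆ T := by
  refine iUnion_subset fun n => ?_
  induction n with
  | zero => exact hST
  | succ n ih =>
    rw [Function.iterate_succ_apply']
    exact union_subset ih (iUnion₂_subset fun F hF => hT F (hF.trans ih))

theorem clo_mono {S T : Set Γ} (h : S ⊆ T) : clo D S ⊆ clo D T :=
  clo_min D (h.trans (subset_clo D T)) (clo_closed D T)

theorem clo_countable (hD : ∀ F, (D F).Countable) {S : Set Γ} (hS : S.Countable) :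
    (clo D S).Countable := by
  classical
  refine countable_iUnion fun n => ?_
  induction n with
  | zero => exact hS
  | succ n ih =>
    rw [Function.iterate_succ_apply']
    refine ih.union ?_
    have h1 : {F : Finset Γ | ↑F ⊆ (stp D)^[n] S}.Countable := by
      have h2 := Set.countable_ofPred_finite_subset ih
      refine Set.countable_of_injective_of_countable_image
        (f := fun F : Finset Γ => (F : Set Γ)) Finset.coe_injective.injOn (h2.mono ?_)
      rintro _ ⟨F, hF, rfl⟩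
      exact ⟨F.finite_toSet, hF⟩
    exact h1.biUnion fun F _ => hD F

theorem clo_iUnion {ι : Type*} [Nonempty ι] (S : ι → Set Γ)
    (hdir : ∀ i j, ∃ k, S i ⊆ S k ∧ S j ⊆ S k) :
    clo D (⋃ i, S i) ⊆ ⋃ i, clo D (S i) := by
  classical
  refine clo_min D (iUnion_mono fun i => subset_clo D (S i)) ?_
  intro F hF
  have h1 : ∃ i, ↑F ⊆ clo D (S i) := by
    induction F using Finset.induction_on with
    | empty => exact ⟨Classical.arbitrary ι, by simp⟩
    | insert a F _ ih =>
      rw [Finset.coe_insert] at hF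
      obtain ⟨i, hi⟩ := ih ((subset_insert _ _).trans hF)
      obtain ⟨j, hj⟩ := mem_iUnion.1 (hF (mem_insert _ _))
      obtain ⟨k, h1, h2⟩ := hdir i j
      refine ⟨k, ?_⟩
      rw [Finset.coe_insert]
      exact insert_subset (clo_mono D h2 hj) (hi.trans (clo_mono D h1))
  obtain ⟨i, hi⟩ := h1
  exact (clo_closed D _ F hi).trans (subset_iUnion (fun i => clo D (S i)) i)

end clo

section good
variable {Γ : Type}

/-- the restrictions of the points of a set of functions -/
def Good (X : Set (Γ → ℝ)) (A : Set Γ) : Prop := ∀ y ∈ X, A.indicator y ∈ X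

/-- closing off gives good sets -/
theorem exists_op {X : Set (Γ → ℝ)} (hX : IsClosed X)
    (hd : X ⊆ closure {y | y ∈ X ∧ (Function.support y).Countable}) :
    ∃ D : Finset Γ → Set Γ, (∀ F, (D F).Countable) ∧
      ∀ A : Set Γ, (∀ F : Finset Γ, ↑F ⊆ A → D F ⊆ A) → Good X A := by
  classical
  have h1 : ∀ (F : Finset Γ) (q : F → ℚ × ℚ), ∃ y : Γ → ℝ, (Function.support y).Countable ∧
      ((∃ y' ∈ {y | y ∈ X ∧ (Function.support y).Countable}, ∀ γ : F, ((q γ).1 : ℝ) < y' γ ∧ y' γ < (q γ).2) →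
        y ∈ X ∧ ∀ γ : F, ((q γ).1 : ℝ) < y γ ∧ y γ < (q γ).2) := by
    intro F q
    by_cases h : ∃ y' ∈ {y | y ∈ X ∧ (Function.support y).Countable}, ∀ γ : F,
        ((q γ).1 : ℝ) < y' γ ∧ y' γ < (q γ).2
    · obtain ⟨y', hy', h'⟩ := h
      exact ⟨y', hy'.2, fun _ => ⟨hy'.1, h'⟩⟩
    · exact ⟨0, by simp, fun h' => absurd h' h⟩
  choose d hd1 hd2 using h1
  refine ⟨fun F => ⋃ q : F → ℚ × ℚ, Function.support (d F q), fun F =>
    countable_iUnion fun q => hd1 F q, ?_⟩
  intro A hA y hy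
  rw [← hX.closure_eq, mem_closure_iff]
  intro U hU hyU
  obtain ⟨I, u, hu, huU⟩ := isOpen_pi_iff.1 hU _ hyU
  have h3 : ∀ γ : (I.filter (· ∈ A) : Finset Γ), ∃ q : ℚ × ℚ, (q.1 : ℝ) < y γ ∧ y γ < q.2 ∧
      Ioo (q.1 : ℝ) q.2 ⊆ u γ := by
    intro γ
    have hγ := Finset.mem_filter.1 γ.2
    have h4 := hu γ hγ.1
    rw [indicator_of_mem hγ.2] at h4
    obtain ⟨_, hv, h5, h6⟩ := Real.isTopologicalBasis_Ioo_rat.exists_subset_of_mem_open h4.2 h4.1
    simp only [mem_iUnion, mem_singleton_iff] at hv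
    obtain ⟨a, b, -, rfl⟩ := hv
    exact ⟨(a, b), h5.1, h5.2, h6⟩
  choose q hq1 hq2 hq3 using h3
  have hex : ∃ y' ∈ {y | y ∈ X ∧ (Function.support y).Countable},
      ∀ γ : (I.filter (· ∈ A) : Finset Γ), ((q γ).1 : ℝ) < y' γ ∧ y' γ < (q γ).2 := by
    have h5 : IsOpen {y' : Γ → ℝ | ∀ γ : (I.filter (· ∈ A) : Finset Γ),
        ((q γ).1 : ℝ) < y' γ ∧ y' γ < (q γ).2} := by
      rw [Set.ofPred_forall]
      refine isOpen_iInter_of_finite fun γ => ?_
      exact (isOpen_lt continuous_const (continuous_apply _)).inter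
        (isOpen_lt (continuous_apply _) continuous_const)
    obtain ⟨y', h6, h7⟩ := mem_closure_iff.1 (hd hy) _ h5 fun γ => ⟨hq1 γ, hq2 γ⟩
    exact ⟨y', h7, h6⟩
  obtain ⟨hdX, hdq⟩ := hd2 _ q hex
  refine ⟨d _ q, huU ?_, hdX⟩
  intro γ hγ
  by_cases hγA : γ ∈ A
  · have hmem : γ ∈ I.filter (· ∈ A) := Finset.mem_filter.2 ⟨hγ, hγA⟩
    exact hq3 ⟨γ, hmem⟩ (hdq ⟨γ, hmem⟩)
  · have h8 : d (I.filter (· ∈ A)) q γ = 0 := by
      by_contra hne
      refine hγA (hA (I.filter (· ∈ A)) ?_ (mem_iUnion.2 ⟨q, hne⟩))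
      intro x hx
      exact (Finset.mem_filter.1 hx).2
    rw [h8]
    have := (hu γ hγ).2
    rwa [indicator_of_notMem hγA] at this

/-- continuous functions depend on countably many coordinates -/
theorem exists_countable_dep {X : Set (Γ → ℝ)} (hX : IsCompact X) (f : C(X, ℝ)) :
    ∃ C : Set Γ, C.Countable ∧ ∀ y y' : X, (∀ γ ∈ C, y.1 γ = y'.1 γ) → f y = f y' := by
  classical
  have : CompactSpace X := isCompact_iff_compactSpace.1 hX
  let A : Subalgebra ℝ C(X, ℝ) :=
    { carrier := {f | ∃ C : Set Γ, C.Countable ∧ ∀ y y' : X, (∀ γ ∈ C, y.1 γ = y'.1 γ) →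
        f y = f y'}
      mul_mem' := by
        rintro f g ⟨C, hC, h⟩ ⟨C', hC', h'⟩
        refine ⟨C ∪ C', hC.union hC', fun y y' hy => ?_⟩
        change f y * g y = f y' * g y'
        rw [h y y' fun γ hγ => hy γ (Or.inl hγ), h' y y' fun γ hγ => hy γ (Or.inr hγ)]
      add_mem' := by
        rintro f g ⟨C, hC, h⟩ ⟨C', hC', h'⟩
        refine ⟨C ∪ C', hC.union hC', fun y y' hy => ?_⟩
        change f y + g y = f y' + g y'
        rw [h y y' fun γ hγ => hy γ (Or.inl hγ), h' y y' fun γ hγ => hy γ (Or.inr hγ)]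
      algebraMap_mem' := fun r => ⟨∅, countable_empty, fun y y' _ => rfl⟩ }
  have hsep : A.SeparatesPoints := by
    intro y y' hne
    obtain ⟨γ, hγ⟩ : ∃ γ, y.1 γ ≠ y'.1 γ := by
      by_contra hcon
      push Not at hcon
      exact hne (Subtype.ext (funext hcon))
    let g : C(X, ℝ) := ⟨fun z => z.1 γ, (continuous_apply γ).comp continuous_subtype_val⟩
    exact ⟨g, ⟨g, ⟨{γ}, countable_singleton _, fun z z' h => h γ rfl⟩, rfl⟩, hγ⟩
  have htop := ContinuousMap.subalgebra_topologicalClosure_eq_top_of_separatesPoints A hsep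
  have hf : f ∈ A.topologicalClosure := by rw [htop]; trivial
  have hf : f ∈ closure (A : Set C(X, ℝ)) := hf
  obtain ⟨s, hs, hlim⟩ := mem_closure_iff_seq_limit.1 hf
  have hs' : ∀ n, ∃ C : Set Γ, C.Countable ∧ ∀ y y' : X, (∀ γ ∈ C, y.1 γ = y'.1 γ) →
      s n y = s n y' := hs
  choose C hC h using hs'
  refine ⟨⋃ n, C n, countable_iUnion hC, fun y y' hy => ?_⟩
  have h1 : ∀ y : X, Tendsto (fun n => s n y) atTop (𝓝 (f y)) := fun y =>
    ((continuous_eval_const y).tendsto f).comp hlim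
  refine tendsto_nhds_unique (h1 y) ((h1 y').congr fun n => ?_)
  exact (h n y y' fun γ hγ => hy γ (mem_iUnion.2 ⟨n, hγ⟩)).symm

end good

end Pool.Agent.helper41.RC
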