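import Pool.Agent.helper41.RC.Main
import Pool.Agent.helper41.RC.Clo

/-!
# RC-Vald: continuous images of Valdivia compact spaces of weight at most `ℵ₁`
-/

set_option autoImplicit false

open Set Topology Filter

namespace Pool.Agent.helper41.RC

open Pool.Agent.helper26.CK

/-- `L` embeds in some `ℝ^Γ` so that the points with countable support are dense in `L` -/
def Valdivia (L : Type) [TopologicalSpace L] : Prop :=
  ∃ (Γ : Type) (j : L → Γ → ℝ), IsEmbedding j ∧ Dense {x | {γ | j x γ ≠ 0}.Countable}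

/-- the weight of `K` is at most `ℵ₁` -/
def WeightLe (K : Type) [TopologicalSpace K] : Prop :=
  ∃ B : Set (Set K), TopologicalSpace.IsTopologicalBasis B ∧ Cardinal.mk B ≤ Cardinal.aleph 1

theorem countable_Iio {α : Ordinal.{0}} (hα : α < Ordinal.omega 1) : (Iio α).Countable := by
  rw [← Cardinal.le_aleph0_iff_set_countable, Cardinal.mk_Iio_ordinal]
  rw [← Cardinal.ord_aleph, Cardinal.lt_ord, Cardinal.lt_aleph_one_iff] at hα
  exact Cardinal.lift_le_aleph0.2 hα

theorem exists_rank (I : Type) (hI : Cardinal.mk I ≤ Cardinal.aleph 1) :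
    ∃ f : I → Ordinal.{0}, (∀ i, f i < Ordinal.omega 1) ∧
      ∀ α < Ordinal.omega 1, {i | f i < α}.Countable := by
  obtain ⟨r, wo, e⟩ := Cardinal.exists_ord_eq I
  refine ⟨Ordinal.typein r, fun i => ?_, fun α hα => ?_⟩
  · refine (Ordinal.typein_lt_type r i).trans_le ?_
    rw [← e, ← Cardinal.ord_aleph]
    exact Cardinal.ord_le_ord.2 hI
  · refine Set.countable_of_injective_of_countable_image (f := Ordinal.typein r)
      (Ordinal.typein_injective r).injOn ((countable_Iio hα).mono ?_)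
    rintro _ ⟨i, hi, rfl⟩
    exact hi

/-- the functions supported by a countable set form a hereditarily Lindelöf space -/
theorem hl_supp {Γ : Type} {C : Set Γ} (hC : C.Countable) :
    IsHereditarilyLindelof {y : Γ → ℝ | ∀ γ ∉ C, y γ = 0} := by
  classical
  intro t ht
  have : Countable C := hC.to_subtype
  let g : (C → ℝ) → (Γ → ℝ) := fun v γ => if h : γ ∈ C then v ⟨γ, h⟩ else 0
  have hg : Continuous g := by
    refine continuous_pi fun γ => ?_
    by_cases h : γ ∈ C
    · simp only [g, h, dite_true]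
      exact continuous_apply _
    · simp only [g, h, dite_false]
      exact continuous_const
  have h1 : g '' (g ⁻¹' t) = t := by
    rw [image_preimage_eq_iff]
    intro y hy
    refine ⟨fun γ => y γ, funext fun γ => ?_⟩
    by_cases h : γ ∈ C
    · simp only [g, h, dite_true]
    · simp only [g, h, dite_false]
      exact (ht hy γ h).symm
  rw [← h1]
  exact (HereditarilyLindelofSpace.isLindelof _).image hg

theorem continuous_ind {Γ : Type} (A : Set Γ) : Continuous fun y : Γ → ℝ => A.indicator y := by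
  classical
  refine continuous_pi fun γ => ?_
  by_cases h : γ ∈ A
  · simp only [indicator, h, if_true]
    exact continuous_apply _
  · simp only [indicator, h, if_false]
    exact continuous_const

/-- the chain of retractions -/
theorem exists_chain {Γ : Type} {X : Set (Γ → ℝ)} (D : Finset Γ → Set Γ)
    (hD : ∀ F, (D F).Countable)
    (hg : ∀ A : Set Γ, (∀ F : Finset Γ, ↑F ⊆ A → D F ⊆ A) → Good X A) {I : Type} (C : I → Set Γ)
    (hC : ∀ i, (C i).Countable) (f : I → Ordinal.{0}) (hf : ∀ i, f i < Ordinal.omega 1)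
    (hf2 : ∀ α < Ordinal.omega 1, {i | f i < α}.Countable) :
    Nonempty (RetrChain {y : Γ → ℝ // y ∈ X ∧ ∀ γ ∉ clo D (⋃ i, C i), y γ = 0}) := by
  classical
  let A : Ordinal.{0} → Set Γ := fun α => clo D (⋃ i ∈ {i | f i < α}, C i)
  have hAc : ∀ α < Ordinal.omega 1, (A α).Countable := fun α hα =>
    clo_countable D hD ((hf2 α hα).biUnion fun i _ => hC i)
  have hAm : ∀ {α β}, α ≤ β → A α ⊆ A β := fun {α β} h =>
    clo_mono D (biUnion_subset_biUnion_left fun i hi => lt_of_lt_of_le hi h)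
  have hAω : ∀ α, Ordinal.omega 1 ≤ α → A α = clo D (⋃ i, C i) := by
    intro α hα
    have : {i | f i < α} = univ := eq_univ_of_forall fun i => (hf i).trans_le hα
    simp only [A, this, mem_univ, iUnion_true]
  have hAs : ∀ α, A α ⊆ clo D (⋃ i, C i) := fun α =>
    clo_mono D (iUnion₂_subset fun i _ => subset_iUnion C i)
  have hAl : ∀ δ, Order.IsSuccLimit δ → ∀ γ ∈ A δ, ∃ β < δ, γ ∈ A β := by
    intro δ hδ γ hγ
    have : Nonempty (Iio δ) := ⟨⟨0, hδ.bot_lt⟩⟩
    have h1 : (⋃ i ∈ {i | f i < δ}, C i) ⊆ ⋃ β : Iio δ, ⋃ i ∈ {i | f i < β.1}, C i := by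
      refine iUnion₂_subset fun i hi => ?_
      intro x hx
      exact mem_iUnion.2 ⟨⟨Order.succ (f i), hδ.succ_lt hi⟩, mem_iUnion₂.2
        ⟨i, Order.lt_succ (f i), hx⟩⟩
    have h2 := clo_iUnion D (fun β : Iio δ => ⋃ i ∈ {i | f i < β.1}, C i) (by
      intro β β'
      refine ⟨max β β', biUnion_subset_biUnion_left fun i hi => ?_,
        biUnion_subset_biUnion_left fun i hi => ?_⟩
      · exact lt_of_lt_of_le hi (le_max_left β.1 β'.1)
      · exact lt_of_lt_of_le hi (le_max_right β.1 β'.1))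
    obtain ⟨β, hβ⟩ := mem_iUnion.1 (h2 (clo_mono D h1 hγ))
    exact ⟨β.1, β.2, hβ⟩
  have hgood : ∀ α, Good X (A α) := fun α => hg _ (clo_closed D _)
  let T := {y : Γ → ℝ // y ∈ X ∧ ∀ γ ∉ clo D (⋃ i, C i), y γ = 0}
  let r : Ordinal.{0} → T → T := fun α y => ⟨(A α).indicator y.1, hgood α _ y.2.1, fun γ hγ =>
    indicator_of_notMem (fun h => hγ (hAs α h)) _⟩
  have hr : ∀ α (y : T), (r α y).1 = (A α).indicator y.1 := fun _ _ => rfl
  have hhl : ∀ α < Ordinal.omega 1, IsHereditarilyLindelof (range (r α)) := by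
    intro α hα t ht
    rw [Subtype.isLindelof_iff]
    refine hl_supp (hAc α hα) _ ?_
    rintro _ ⟨y, hy, rfl⟩ γ hγ
    obtain ⟨y', rfl⟩ := ht hy
    rw [hr]
    exact indicator_of_notMem hγ _
  have hid : ∀ α, Ordinal.omega 1 ≤ α → ∀ y, r α y = y := by
    intro α hα y
    apply Subtype.ext
    rw [hr, hAω α hα, indicator_eq_self]
    intro γ hγ
    by_contra hcon
    exact hγ (y.2.2 γ hcon)
  refine ⟨⟨r, ?_, ?_, ⟨Ordinal.omega 1, hid _ le_rfl⟩, ?_, ?_, ?_⟩⟩
  · intro α
    exact Continuous.subtype_mk ((continuous_ind _).comp continuous_subtype_val) _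
  · intro α β y
    apply Subtype.ext
    rw [hr, hr, hr, indicator_indicator]
    congr 1
    rcases le_total α β with h | h
    · rw [min_eq_left h, inter_eq_left.2 (hAm h)]
    · rw [min_eq_right h, inter_eq_right.2 (hAm h)]
  · intro δ hδ y U hU
    obtain ⟨U', hU', hUU⟩ := mem_nhds_subtype _ _ _ |>.1 hU
    obtain ⟨V, hV, hVo, hyV⟩ := mem_nhds_iff.1 hU'
    obtain ⟨J, u, hu, huV⟩ := isOpen_pi_iff.1 hVo _ hyV
    have h1 : ∃ β < δ, ∀ γ ∈ J, γ ∈ A δ → γ ∈ A β := by
      clear hu huV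
      induction J using Finset.induction_on with
      | empty => exact ⟨0, hδ.bot_lt, by simp⟩
      | insert a J _ ih =>
        obtain ⟨β, hβ, h⟩ := ih
        obtain ⟨β', hβ', h'⟩ : ∃ β' < δ, a ∈ A δ → a ∈ A β' := by
          by_cases ha : a ∈ A δ
          · obtain ⟨β', hβ', h'⟩ := hAl δ hδ a ha
            exact ⟨β', hβ', fun _ => h'⟩
          · exact ⟨0, hδ.bot_lt, fun h => absurd h ha⟩
        refine ⟨max β β', max_lt hβ hβ', fun γ hγ hγδ => ?_⟩
        rcases Finset.mem_insert.1 hγ with h1 | h1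
        · rw [h1] at hγδ ⊢
          exact hAm (le_max_right _ _) (h' hγδ)
        · exact hAm (le_max_left _ _) (h γ h1 hγδ)
    obtain ⟨β, hβ, h⟩ := h1
    refine ⟨β, hβ, fun γ' hγ' hγδ => hUU (hV (huV ?_))⟩
    intro γ hγ
    have h2 : (r γ' y).1 γ = (r δ y).1 γ := by
      rw [hr, hr]
      by_cases hγA : γ ∈ A δ
      · rw [indicator_of_mem hγA, indicator_of_mem (hAm hγ' (h γ hγ hγA))]
      · rw [indicator_of_notMem hγA, indicator_of_notMem fun h3 => hγA (hAm hγδ.le h3)]
    rw [h2]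
    exact (hu γ hγ).2
  · exact hhl 0 (Ordinal.omega_pos 1)
  · intro α
    by_cases hα : Order.succ α < Ordinal.omega 1
    · refine ⟨Unit, fun _ _ => range (r (Order.succ α)), fun z hz _ => ⟨0, (), hz⟩,
        fun _ _ => hhl _ hα, fun _ x _ => ⟨univ, univ_mem, toFinite _⟩⟩
    · refine ⟨Unit, fun _ _ => ∅, fun z _ hz => ?_, fun _ _ t ht => ?_,
        fun _ x _ => ⟨univ, univ_mem, toFinite _⟩⟩
      · exfalso
        have h1 : Ordinal.omega 1 ≤ α := by
          by_contra hcon
          exact hα ((Cardinal.isSuccLimit_omega 1).succ_lt (not_le.1 hcon))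
        exact hz ⟨z, hid α h1 z⟩
      · rw [subset_empty_iff.1 ht]
        exact isLindelof_empty

/-- continuous images of weight at most `ℵ₁` of Valdivia compact spaces -/
theorem chainImages_of_valdivia {K L : Type} [TopologicalSpace K] [CompactSpace K] [T2Space K]
    [TopologicalSpace L] [CompactSpace L] (hw : WeightLe K) (hL : Valdivia L) {π : L → K}
    (hπ : Continuous π) (hs : Function.Surjective π) : ChainImages K := by
  classical
  obtain ⟨Γ, j, hj, hd⟩ := hL
  obtain ⟨B, hB, hBc⟩ := hw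
  have hXc : IsCompact (range j) := isCompact_range hj.continuous
  have hd' : range j ⊆ closure {y | y ∈ range j ∧ (Function.support y).Countable} := by
    rintro _ ⟨x, rfl⟩
    have h1 := image_closure_subset_closure_image hj.continuous ⟨x, hd x, rfl⟩
    refine closure_mono ?_ h1
    rintro _ ⟨x', hx', rfl⟩
    exact ⟨⟨x', rfl⟩, hx'⟩
  obtain ⟨D, hD, hg⟩ := exists_op hXc.isClosed hd'
  let h : L ≃ₜ range j := hj.toHomeomorph
  have hh : ∀ x, h.symm ⟨j x, x, rfl⟩ = x := fun x => by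
    rw [Homeomorph.symm_apply_eq]
    rfl
  have hg' : ∀ p : B × B, ∃ g : C(K, ℝ), Disjoint (closure p.1.1) (closure p.2.1) →
      (∀ x ∈ p.1.1, g x = 0) ∧ ∀ x ∈ p.2.1, g x = 1 := by
    intro p
    by_cases hp : Disjoint (closure p.1.1) (closure p.2.1)
    · obtain ⟨g, h0, h1, -⟩ := exists_continuous_zero_one_of_isClosed isClosed_closure
        isClosed_closure hp
      exact ⟨g, fun _ => ⟨fun x hx => h0 (subset_closure hx), fun x hx => h1 (subset_closure hx)⟩⟩
    · exact ⟨0, fun h => absurd h hp⟩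
  choose g hg1 using hg'
  have hdep := fun p : B × B => exists_countable_dep hXc
    ((g p).comp ⟨fun y => π (h.symm y), hπ.comp h.symm.continuous⟩)
  choose C hC hC2 using hdep
  have hI : Cardinal.mk (B × B) ≤ Cardinal.aleph 1 := by
    rw [Cardinal.mk_prod, Cardinal.lift_id]
    calc Cardinal.mk B * Cardinal.mk B ≤ Cardinal.aleph 1 * Cardinal.aleph 1 := by gcongr
      _ = Cardinal.aleph 1 := Cardinal.mul_eq_self (Cardinal.aleph0_le_aleph 1)
  obtain ⟨f, hf, hf2⟩ := exists_rank (B × B) hI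
  have hch := exists_chain (X := range j) D hD hg C hC f hf hf2
  set A := clo D (⋃ i, C i) with hA
  have hgA : Good (range j) A := hg _ (clo_closed D _)
  have hTc : IsCompact {y : Γ → ℝ | y ∈ range j ∧ ∀ γ ∉ A, y γ = 0} := by
    have h1 : IsClosed (⋂ γ : Γ, ⋂ _ : γ ∉ A, {y : Γ → ℝ | y γ = 0}) :=
      isClosed_iInter fun γ => isClosed_iInter fun _ =>
        isClosed_eq (continuous_apply γ) continuous_const
    have h2 : {y : Γ → ℝ | y ∈ range j ∧ ∀ γ ∉ A, y γ = 0} =
        range j ∩ ⋂ γ : Γ, ⋂ _ : γ ∉ A, {y : Γ → ℝ | y γ = 0} := by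
      ext y
      simp only [mem_inter_iff, mem_iInter]
      rfl
    rw [h2]
    exact hXc.inter_right h1
  refine ⟨fun _ => {y : Γ → ℝ // y ∈ range j ∧ ∀ γ ∉ A, y γ = 0}, fun _ => inferInstance,
    fun _ y => π (h.symm ⟨y.1, y.2.1⟩), fun _ => isCompact_iff_compactSpace.1 hTc,
    fun _ => inferInstance, fun _ => hch, fun _ => ?_, fun k => ?_⟩
  · exact hπ.comp (h.symm.continuous.comp (Continuous.subtype_mk continuous_subtype_val _))
  · obtain ⟨x, rfl⟩ := hs k
    have hy := hgA (j x) ⟨x, rfl⟩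
    refine ⟨0, ⟨A.indicator (j x), hy, fun γ hγ => indicator_of_notMem hγ _⟩, ?_⟩
    change π (h.symm ⟨A.indicator (j x), hy⟩) = π x
    by_contra hne
    obtain ⟨U, hxU, hU, V, hyV, hV, hUV⟩ := exists_open_nhds_disjoint_closure hne
    obtain ⟨U', hU', hxU', hUU⟩ := hB.exists_subset_of_mem_open hxU hU
    obtain ⟨V', hV', hyV', hVV⟩ := hB.exists_subset_of_mem_open hyV hV
    have h1 := hg1 (⟨U', hU'⟩, ⟨V', hV'⟩) (hUV.mono (closure_mono hUU) (closure_mono hVV))
    have h2 := h1.1 _ hxU'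
    have h3 := h1.2 _ hyV'
    have h4 := hC2 (⟨U', hU'⟩, ⟨V', hV'⟩) ⟨A.indicator (j x), hy⟩ ⟨j x, x, rfl⟩ (by
      intro γ hγ
      exact indicator_of_mem (subset_clo D _ (mem_iUnion.2 ⟨_, hγ⟩)) _)
    change g _ (π (h.symm ⟨A.indicator (j x), hy⟩)) = g _ (π (h.symm ⟨j x, x, rfl⟩)) at h4
    rw [hh, h2, h3] at h4
    exact zero_ne_one h4

end Pool.Agent.helper41.RC
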