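import Pool.Agent.helper41.RC.Ord

/-!
# RC-Chain: continuous chains of retractions; the catching lemma
-/

set_option autoImplicit false

open Set Topology Filter

namespace Pool.Agent.helper41.RC

open Pool.Agent.helper26.CK

/-- a continuous chain of retractions of `K`, indexed by the ordinals and equal to the identity
from some ordinal on; it starts with a retraction onto a hereditarily Lindelöf set, and the set of
the new points of each successor step is covered by countably many families of hereditarily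
Lindelöf sets, each of them locally finite at the points outside of the old set -/
structure RetrChain (K : Type) [TopologicalSpace K] where
  /-- the retractions -/
  r : Ordinal.{0} → K → K
  cont : ∀ α, Continuous (r α)
  comm : ∀ α β x, r α (r β x) = r (min α β) x
  last : ∃ θ, ∀ x, r θ x = x
  lim : ∀ δ, Order.IsSuccLimit δ → ∀ x, ∀ U ∈ 𝓝 (r δ x), ∃ β < δ, ∀ γ, β ≤ γ → γ < δ → r γ x ∈ U
  base : IsHereditarilyLindelof (range (r 0))
  incr : ∀ α, ∃ (J : Type) (M : ℕ → J → Set K),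
    (∀ z ∈ range (r (Order.succ α)), z ∉ range (r α) → ∃ n j, z ∈ M n j) ∧
    (∀ n j, IsHereditarilyLindelof (M n j)) ∧
    ∀ n, ∀ x ∉ range (r α), ∃ U ∈ 𝓝 x, {j | (M n j ∩ U).Nonempty}.Finite

namespace RetrChain

variable {K : Type} [TopologicalSpace K] (R : RetrChain K)

theorem comm_le {α β : Ordinal.{0}} (h : α ≤ β) (x : K) : R.r α (R.r β x) = R.r α x := by
  rw [R.comm, min_eq_left h]

theorem comm_ge {α β : Ordinal.{0}} (h : β ≤ α) (x : K) : R.r α (R.r β x) = R.r β x := by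
  rw [R.comm, min_eq_right h]

theorem r_of_range {α : Ordinal.{0}} {x : K} (hx : x ∈ range (R.r α)) : R.r α x = x := by
  obtain ⟨y, rfl⟩ := hx
  exact R.comm_le le_rfl y

/-- the limits are unique -/
theorem eq_of_lim [T2Space K] {δ : Ordinal.{0}} (hδ : Order.IsSuccLimit δ) {x y : K}
    (h : ∀ β < δ, R.r β x = R.r β y) : R.r δ x = R.r δ y := by
  by_contra hne
  obtain ⟨U, V, hU, hV, hxU, hyV, hUV⟩ := t2_separation hne
  obtain ⟨β, hβ, h1⟩ := R.lim δ hδ x U (hU.mem_nhds hxU)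
  obtain ⟨β', hβ', h2⟩ := R.lim δ hδ y V (hV.mem_nhds hyV)
  have hm : max β β' < δ := max_lt hβ hβ'
  have a := h1 _ (le_max_left β β') hm
  have b := h2 _ (le_max_right β β') hm
  rw [h _ hm] at a
  exact hUV.le_bot ⟨a, b⟩

theorem mem_of_lim {δ γ0 : Ordinal.{0}} (hδ : Order.IsSuccLimit δ) (hγ0 : γ0 < δ) {x : K}
    {E : Set K} (hE : IsClosed E) (h : ∀ β, γ0 ≤ β → β < δ → R.r β x ∈ E) : R.r δ x ∈ E := by
  by_contra hne
  obtain ⟨β, hβ, h1⟩ := R.lim δ hδ x Eᶜ (hE.isOpen_compl.mem_nhds hne)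
  have hm : max β γ0 < δ := max_lt hβ hγ0
  exact h1 _ (le_max_left β γ0) hm (h _ (le_max_right β γ0) hm)

/-- uniform convergence at the limits -/
theorem unif [CompactSpace K] [T2Space K] {δ : Ordinal.{0}} (hδ : Order.IsSuccLimit δ)
    {g : K × K → ℝ} (hg : Continuous g) (hg0 : ∀ a, g (a, a) = 0) {ε : ℝ} (hε : 0 < ε) :
    ∃ γ < δ, ∀ β, γ ≤ β → β < δ → ∀ x, g (R.r β x, R.r δ x) < ε := by
  classical
  let Q : Iio δ → Set (K × K) := fun γ =>
    {p | R.r δ p.1 = p.1 ∧ R.r δ p.2 = p.2 ∧ R.r γ p.1 = R.r γ p.2 ∧ ε ≤ g p}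
  have hQc : ∀ γ, IsClosed (Q γ) := by
    intro γ
    have c1 := R.cont δ
    have c2 := R.cont γ.1
    refine (isClosed_eq (by fun_prop) (by fun_prop)).inter
      ((isClosed_eq (by fun_prop) (by fun_prop)).inter
        ((isClosed_eq (by fun_prop) (by fun_prop)).inter (isClosed_le (by fun_prop) hg)))
  have hmono : ∀ γ γ' : Iio δ, γ ≤ γ' → Q γ' ⊆ Q γ := by
    rintro γ γ' h p ⟨h1, h2, h3, h4⟩
    refine ⟨h1, h2, ?_, h4⟩
    have : R.r γ.1 (R.r γ'.1 p.1) = R.r γ.1 (R.r γ'.1 p.2) := by rw [h3]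
    rwa [R.comm_le h, R.comm_le h] at this
  have : Nonempty (Iio δ) := ⟨⟨0, hδ.bot_lt⟩⟩
  by_cases hall : ∀ γ, (Q γ).Nonempty
  · exfalso
    obtain ⟨p, hp⟩ := IsCompact.nonempty_iInter_of_directed_nonempty_isCompact_isClosed Q
      (by
        intro a b
        refine ⟨max a b, hmono _ _ (le_max_left _ _), hmono _ _ (le_max_right _ _)⟩)
      hall (fun γ => (hQc γ).isCompact) hQc
    rw [mem_iInter] at hp
    have h1 : R.r δ p.1 = R.r δ p.2 := R.eq_of_lim hδ fun β hβ => (hp ⟨β, hβ⟩).2.2.1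
    have h0 := hp ⟨0, hδ.bot_lt⟩
    have h2 : p.1 = p.2 := by rw [← h0.1, h1, h0.2.1]
    have h3 : g p = 0 := by
      have : p = (p.1, p.1) := Prod.ext rfl h2.symm
      rw [this]; exact hg0 _
    have := h0.2.2.2
    linarith
  · push Not at hall
    obtain ⟨γ, hγ⟩ := hall
    refine ⟨γ.1, γ.2, fun β hβ hβδ x => ?_⟩
    by_contra hge
    push Not at hge
    have : (R.r β x, R.r δ x) ∈ Q γ := by
      refine ⟨R.comm_ge hβδ.le x, R.comm_le le_rfl x, ?_, hge⟩
      change R.r γ.1 (R.r β x) = R.r γ.1 (R.r δ x)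
      rw [R.comm_le hβ, R.comm_le (le_of_lt γ.2)]
    rw [hγ] at this
    exact this

/-- finitely many large jumps -/
theorem fin_jumps [CompactSpace K] [T2Space K] {g : K × K → ℝ} (hg : Continuous g)
    (hg0 : ∀ a, g (a, a) = 0) (hgt : ∀ a b c, g (a, c) ≤ g (a, b) + g (c, b)) {ε : ℝ} (hε : 0 < ε) :
    {α | ∃ x, ε ≤ g (R.r (Order.succ α) x, R.r α x)}.Finite := by
  classical
  obtain ⟨θ, hθ⟩ := R.last
  set B := {α | ∃ x, ε ≤ g (R.r (Order.succ α) x, R.r α x)} with hB
  have hid : ∀ α, θ ≤ α → ∀ x, R.r α x = x := by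
    intro α hα x
    have := R.comm_ge hα x
    rwa [hθ] at this
  have hsub : B ⊆ Iio θ := by
    rintro α ⟨x, hx⟩
    by_contra hα
    have hα : θ ≤ α := not_lt.1 hα
    rw [hid α hα, hid _ (hα.trans (Order.le_succ α)), hg0] at hx
    linarith
  have key : ∀ δ : Ordinal.{0}, (B ∩ Iio δ).Finite := by
    intro δ
    induction δ using Ordinal.limitRecOn with
    | zero =>
      have : B ∩ Iio (0 : Ordinal.{0}) = ∅ := by
        ext a; simp
      rw [this]; exact finite_empty
    | add_one δ ih =>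
      refine (ih.insert δ).subset ?_
      rintro a ⟨ha, hlt⟩
      rcases (Order.lt_add_one_iff.1 (mem_Iio.1 hlt)).eq_or_lt with h | h
      · exact Or.inl h
      · exact Or.inr ⟨ha, h⟩
    | limit δ hδ ih =>
      obtain ⟨γ, hγ, h1⟩ := R.unif hδ hg hg0 (half_pos hε)
      refine (ih γ hγ).subset ?_
      rintro a ⟨ha, hlt⟩
      refine ⟨ha, ?_⟩
      by_contra hge
      have hge : γ ≤ a := not_lt.1 hge
      obtain ⟨x, hx⟩ := ha
      have hs : Order.succ a < δ := hδ.succ_lt hlt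
      have e1 := h1 (Order.succ a) (hge.trans (Order.le_succ a)) hs x
      have e2 := h1 a hge hlt x
      have e3 := hgt (R.r (Order.succ a) x) (R.r δ x) (R.r a x)
      linarith
  have := key θ
  rwa [inter_eq_left.2 hsub] at this

/-- the catching lemma -/
theorem catching [CompactSpace K] [T2Space K] {X : Type} [TopologicalSpace X] [T2Space X]
    {idx : X → Ordinal.{0}} (hidx : Function.Injective idx) {m : Set X → X}
    (hm : ∀ C : Set X, IsClosed C → C.Nonempty → m C ∈ C ∧ ∀ x ∈ C, idx x ≤ idx (m C))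
    {φ : K → X} (hφ : Continuous φ)
    {V : Type*} [TopologicalSpace V] [T2Space V] {F : X → V} (hF : Continuous F) {E : Set X}
    (hE : IsClosed E) (hne : ∃ x, φ x ∈ E)
    (hsat : ∀ x y, F (φ x) = F (φ y) → φ x ∈ E → φ y ∈ E) :
    (∃ x ∈ range (R.r 0), φ x ∈ E) ∨
      ∃ α, ∃ z ∈ range (R.r (Order.succ α)), z ∉ range (R.r α) ∧ F (φ z) ≠ F (φ (R.r α z)) ∧
        (φ z ∈ E ∨ φ (R.r α z) ∈ E ∨ m (φ '' {x | R.r α x = R.r α z}) ∈ E) := by
  classical
  obtain ⟨θ, hθ⟩ := R.last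
  have hid : ∀ α, θ ≤ α → ∀ x, R.r α x = x := by
    intro α hα x
    have := R.comm_ge hα x
    rwa [hθ] at this
  by_contra hcon
  push Not at hcon
  obtain ⟨h0, h1⟩ := hcon
  -- the values do not change
  have h2 : ∀ α x, (φ (R.r (Order.succ α) x) ∈ E ∨ φ (R.r α x) ∈ E ∨
      m (φ '' {u | R.r α u = R.r α x}) ∈ E) →
      F (φ (R.r (Order.succ α) x)) = F (φ (R.r α x)) := by
    intro α x hx
    have e : R.r α (R.r (Order.succ α) x) = R.r α x := R.comm_le (Order.le_succ α) x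
    by_contra hne
    have hz : R.r (Order.succ α) x ∉ range (R.r α) := by
      intro hr
      apply hne
      have := R.r_of_range hr
      rw [e] at this
      rw [← this]
    have h3 := h1 α _ ⟨x, rfl⟩ hz (by rw [e]; exact hne)
    rw [e] at h3
    rcases hx with h | h | h
    · exact h3.1 h
    · exact h3.2.1 h
    · exact h3.2.2 h
  have hA : ∀ α x, φ (R.r (Order.succ α) x) ∈ E → φ (R.r α x) ∈ E := fun α x h =>
    hsat _ _ (h2 α x (Or.inl h)) h
  have hA' : ∀ α x, φ (R.r α x) ∈ E → φ (R.r (Order.succ α) x) ∈ E := fun α x h =>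
    hsat _ _ (h2 α x (Or.inr (Or.inl h))).symm h
  obtain ⟨x, hx⟩ := hne
  have hex : ∃ α, φ (R.r α x) ∈ E := ⟨θ, by rw [hθ]; exact hx⟩
  have hE' : IsClosed (φ ⁻¹' E) := hE.preimage hφ
  -- the first entry
  obtain ⟨δ, hδE, hδmin⟩ : ∃ δ, φ (R.r δ x) ∈ E ∧ ∀ β < δ, φ (R.r β x) ∉ E := by
    obtain ⟨δ, h, h'⟩ := WellFounded.has_min (wellFounded_lt (α := Ordinal.{0}))
      {α | φ (R.r α x) ∈ E} hex
    exact ⟨δ, h, fun β hβ hb => h' β hb hβ⟩
  have hδl : Order.IsSuccLimit δ := by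
    rcases Ordinal.zero_or_succ_or_isSuccLimit δ with h | ⟨a, ha⟩ | h
    · exact absurd (h ▸ hδE) (h0 _ ⟨x, rfl⟩)
    · exfalso
      rw [← ha] at hδE
      exact hδmin a (by rw [← ha]; exact Order.lt_succ a) (hA a x hδE)
    · exact h
  -- the maxima of the images of the fibres
  have hQ : ∀ β, IsClosed {u | R.r β u = R.r β x} := fun β =>
    isClosed_eq (R.cont β) continuous_const
  have hC : ∀ β, IsClosed (φ '' {u | R.r β u = R.r β x}) := fun β =>
    ((hQ β).isCompact.image hφ).isClosed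
  have hCn : ∀ β, (φ '' {u | R.r β u = R.r β x}).Nonempty := fun β => ⟨φ x, x, rfl, rfl⟩
  have hmm := fun β => hm _ (hC β) (hCn β)
  obtain ⟨β0, hβ0, hmin⟩ : ∃ β0 < δ, ∀ β < δ,
      idx (m (φ '' {u | R.r β0 u = R.r β0 x})) ≤ idx (m (φ '' {u | R.r β u = R.r β x})) := by
    obtain ⟨β0, h, h'⟩ := WellFounded.has_min (InvImage.wf
      (fun β => idx (m (φ '' {u | R.r β u = R.r β x}))) (wellFounded_lt (α := Ordinal.{0})))
      (Iio δ) ⟨0, hδl.bot_lt⟩
    exact ⟨β0, h, fun β hβ => not_lt.1 (h' β hβ)⟩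
  set p := m (φ '' {u | R.r β0 u = R.r β0 x}) with hp
  have hsub : ∀ β β', β ≤ β' → {u | R.r β' u = R.r β' x} ⊆ {u | R.r β u = R.r β x} := by
    intro β β' h u hu
    change R.r β u = R.r β x
    have hu : R.r β' u = R.r β' x := hu
    rw [← R.comm_le h, hu, R.comm_le h]
  have hpe : ∀ β, β0 ≤ β → β < δ → m (φ '' {u | R.r β u = R.r β x}) = p := by
    intro β hβ hβδ
    apply hidx
    exact le_antisymm ((hmm β0).2 _ (image_mono (hsub _ _ hβ) (hmm β).1)) (hmin β hβδ)
  obtain ⟨u, hu⟩ : ∃ u, ∀ β, β0 ≤ β → β < δ → R.r β u = R.r β x ∧ φ u = p := by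
    let Q : Ico β0 δ → Set K := fun β => {u | R.r β u = R.r β x} ∩ {u | φ u = p}
    have hQc : ∀ β, IsClosed (Q β) := fun β =>
      (hQ β).inter (isClosed_eq hφ continuous_const)
    have hQn : ∀ β, (Q β).Nonempty := by
      intro β
      obtain ⟨v, hv, hvp⟩ := (hmm β.1).1
      exact ⟨v, hv, hvp.trans (hpe β.1 β.2.1 β.2.2)⟩
    have : Nonempty (Ico β0 δ) := ⟨⟨β0, le_rfl, hβ0⟩⟩
    obtain ⟨u, hu⟩ := IsCompact.nonempty_iInter_of_directed_nonempty_isCompact_isClosed Q
      (by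
        intro a b
        refine ⟨max a b, inter_subset_inter_left _ (hsub _ _ ?_),
          inter_subset_inter_left _ (hsub _ _ ?_)⟩
        · exact le_max_left a b
        · exact le_max_right a b)
      hQn (fun β => (hQc β).isCompact) hQc
    rw [mem_iInter] at hu
    exact ⟨u, fun β h h' => hu ⟨β, h, h'⟩⟩
  have hup : φ u = p := (hu β0 le_rfl hβ0).2
  have hur : ∀ β < δ, R.r β u = R.r β x := by
    intro β hβ
    rcases le_total β0 β with h | h
    · exact (hu β h hβ).1
    · exact hsub _ _ h (hu β0 le_rfl hβ0).1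
  have huδ : R.r δ u = R.r δ x := R.eq_of_lim hδl hur
  have huα : ∀ α, δ ≤ α → φ (R.r α u) ∈ E := by
    intro α
    induction α using Ordinal.limitRecOn with
    | zero =>
      intro h
      exact absurd (hδl.bot_lt.trans_le h) (lt_irrefl _)
    | add_one α ih =>
      intro h
      rcases h.eq_or_lt with h | h
      · rw [← h, huδ]; exact hδE
      · exact hA' α u (ih (Order.lt_add_one_iff.1 h))
    | limit α hα ih =>
      intro h
      rcases h.eq_or_lt with h | h
      · rw [← h, huδ]; exact hδE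
      · exact R.mem_of_lim hα h hE' fun β hβ hβα => ih β hβα hβ
  have hpE : p ∈ E := by
    have := huα (max θ δ) (le_max_right _ _)
    rwa [hid _ (le_max_left _ _), hup] at this
  -- the values are constant on `[β0, δ)`
  have hconst : ∀ β, β0 ≤ β → β ≤ δ → F (φ (R.r β x)) = F (φ (R.r β0 x)) := by
    intro β
    induction β using Ordinal.limitRecOn with
    | zero =>
      intro h _
      have : β0 = 0 := le_antisymm h bot_le
      rw [this]
    | add_one β ih =>
      intro h h'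
      rcases h.eq_or_lt with h | h
      · rw [← h]
      · have h3 : β0 ≤ β := Order.lt_add_one_iff.1 h
        have h4 : β < δ := (Order.lt_succ β).trans_le h'
        have h5 := h2 β x (Or.inr (Or.inr (by rw [hpe β h3 h4]; exact hpE)))
        exact h5.trans (ih h3 h4.le)
    | limit β hβ ih =>
      intro h h'
      rcases h.eq_or_lt with h | h
      · rw [← h]
      · have hcl : IsClosed {u | F (φ u) = F (φ (R.r β0 x))} :=
          isClosed_eq (hF.comp hφ) continuous_const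
        exact R.mem_of_lim hβ h hcl fun γ hγ hγβ => ih γ hγβ hγ (hγβ.le.trans h')
  exact hδmin β0 hβ0 (hsat _ _ (hconst δ hβ0.le le_rfl) hδE)

end RetrChain

end Pool.Agent.helper41.RC
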