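import Pool.Agent.helper41.RC.Sys
import Pool.Agent.helper26.CK.RoughM
import Pool.Agent.helper26.CK.Restr
import Pool.Agent.helper26.CK.Point

/-!
# RC-Main: norms on C(K × Z), `K` a countable union of images of spaces with retraction chains
-/

set_option autoImplicit false

open Set Topology Filter

namespace Pool.Agent.helper41.RC

open Pool.Agent.helper26.CK

/-- `K` is a countable union of continuous images of compact Hausdorff spaces with chains of
retractions -/
def ChainImages (K : Type) [TopologicalSpace K] : Prop :=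
  ∃ (L : ℕ → Type) (_ : ∀ n, TopologicalSpace (L n)) (φ : ∀ n, L n → K),
    (∀ n, CompactSpace (L n)) ∧ (∀ n, T2Space (L n)) ∧ (∀ n, Nonempty (RetrChain (L n))) ∧
      (∀ n, Continuous (φ n)) ∧ ∀ x, ∃ n l, φ n l = x

variable {K Z : Type} [TopologicalSpace K] [CompactSpace K] [T2Space K] [TopologicalSpace Z]
  [CompactSpace Z]

/-- the Talagrand system -/
theorem exists_TSys [Nonempty K] (hK : Scattered K) (hL : ChainImages K) {ν : C(Z, ℝ) → ℝ}
    (hν : EqNorm C(Z, ℝ) ν) :
    ∃ I : Type 1, Nonempty (TSys C(K × Z, ℝ) C(Z, ℝ) I ν (PP (K := K) ν)) := by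
  classical
  obtain ⟨L, iT, φ, iC, iH, iR, hφ, hcov⟩ := hL
  have hP := eqNorm_PP (K := K) hν
  have hsys := fun n => exists_sys hK (iR n).some (hφ n)
  choose I y a b c B hB hc hfin hcat using hsys
  have hk : ∀ n, ∃ k : K → ℕ, InjOn k (B n) := fun n => Set.countable_iff_exists_injOn.1 (hB n)
  choose k hk using hk
  let e : (Σ n, (B n) ⊕ (I n)) → C(K × Z, ℝ) →L[ℝ] C(Z, ℝ) := fun o =>
    match o with
    | ⟨_, Sum.inl x⟩ => ev x.1
    | ⟨n, Sum.inr i⟩ => ev (y n i)
  let t : (Σ n, (B n) ⊕ (I n)) → C(K × Z, ℝ) →L[ℝ] C(Z, ℝ) := fun o =>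
    match o with
    | ⟨n, Sum.inl x⟩ => (wt n * wt (k n x.1)) • ev x.1
    | ⟨n, Sum.inr i⟩ => (wt n * c n i) • (ev (b n i) - ev (a n i))
  have hdiff : ∀ (a b : K) (F : C(K × Z, ℝ)), ν (ev a F - ev b F) ≤ 2 * PP (K := K) ν F := by
    intro a b F
    have h1 := le_PP hν a F
    have h2 := le_PP hν b F
    have h3 := hν.add_le (ev a F) (-ev b F)
    rw [hν.map_neg, ← sub_eq_add_neg] at h3
    linarith
  refine ⟨Σ n, (B n) ⊕ (I n), ⟨⟨e, t, ?_, ?_, ?_, ?_⟩⟩⟩
  · rintro ⟨n, x | i⟩ F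
    · exact le_PP hν _ F
    · exact le_PP hν _ F
  · rintro ⟨n, x | i⟩ F
    · change ν ((wt n * wt (k n x.1)) • ev x.1 F) ≤ _
      rw [hν.smul_nonneg (mul_pos (wt_pos _) (wt_pos _)).le]
      have h1 := le_PP hν x.1 F
      have h2 := hν.nonneg (ev x.1 F)
      have h3 : wt n * wt (k n x.1) ≤ 1 := mul_le_one₀ (wt_le _) (wt_pos _).le (wt_le _)
      nlinarith
    · change ν ((wt n * c n i) • (ev (b n i) F - ev (a n i) F)) ≤ _
      rw [hν.smul_nonneg (mul_pos (wt_pos _) (hc n i).1).le]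
      have h1 := hdiff (b n i) (a n i) F
      have h2 := hν.nonneg (ev (b n i) F - ev (a n i) F)
      have h3 : wt n * c n i ≤ 1 := mul_le_one₀ (wt_le _) (hc n i).1.le (hc n i).2
      nlinarith
  · intro F ε hε
    have hPF := hP.nonneg F
    set P0 := 2 * PP (K := K) ν F + 1 with hP0
    have hP0' : 0 < P0 := by rw [hP0]; linarith
    let g : K × K → ℝ := fun p => ν (ev p.1 F - ev p.2 F)
    have hg : Continuous g :=
      hν.continuous.comp (((continuous_ev F).comp continuous_fst).sub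
        ((continuous_ev F).comp continuous_snd))
    have hfin1 : ∀ n, {i | ε ≤ c n i * g (b n i, a n i)}.Finite := by
      intro n
      refine hfin n g hg ?_ ?_ ?_ ε hε
      · intro x
        change ν (ev x F - ev x F) = 0
        rw [sub_self, hν.map_zero]
      · intro p
        exact hν.nonneg _
      · intro u v w
        change ν (ev u F - ev w F) ≤ ν (ev u F - ev v F) + ν (ev w F - ev v F)
        rw [hν.sub_comm (ev w F) (ev v F)]
        have := hν.add_le (ev u F - ev v F) (ev v F - ev w F)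
        rwa [sub_add_sub_cancel] at this
    have hN := wt_small (ε := ε / P0) (by positivity)
    have hNN := wt_mul_small (ε := ε / P0) (by positivity)
    have hfin2 : ∀ n, {x : B n | k n x.1 ∈ Prod.snd '' {p : ℕ × ℕ |
        ε / P0 ≤ wt p.1 * wt p.2}}.Finite := by
      intro n
      refine Set.Finite.of_finite_image (f := fun x : B n => k n x.1)
        ((hNN.image Prod.snd).subset ?_) ?_
      · rintro _ ⟨p, hp, rfl⟩
        exact hp
      · intro x _ x' _ h
        exact Subtype.ext (hk n x.2 x'.2 h)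
    have hA : (⋃ n ∈ {n | ε / P0 ≤ wt n}, ((fun x : B n =>
        (⟨n, Sum.inl x⟩ : Σ n, (B n) ⊕ (I n))) '' {x : B n | k n x.1 ∈ Prod.snd '' {p : ℕ × ℕ |
        ε / P0 ≤ wt p.1 * wt p.2}}) ∪ ((fun i : I n => (⟨n, Sum.inr i⟩ : Σ n, (B n) ⊕ (I n))) ''
        {i | ε ≤ c n i * g (b n i, a n i)})).Finite :=
      hN.biUnion fun n _ => ((hfin2 n).image _).union ((hfin1 n).image _)
    refine hA.subset ?_
    rintro ⟨n, x | i⟩ h
    · have h : ε ≤ ν ((wt n * wt (k n x.1)) • ev x.1 F) := h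
      rw [hν.smul_nonneg (mul_pos (wt_pos _) (wt_pos _)).le] at h
      have h1 := le_PP hν x.1 F
      have h2 := hν.nonneg (ev x.1 F)
      have h3 := wt_pos n
      have h4 := wt_pos (k n x.1)
      have h6 := wt_le (k n x.1)
      have h7 : ε / P0 ≤ wt n * wt (k n x.1) := by
        rw [div_le_iff₀ hP0']
        refine h.trans (mul_le_mul_of_nonneg_left ?_ (mul_pos h3 h4).le)
        rw [hP0]; linarith
      have h8 : ε / P0 ≤ wt n := h7.trans (mul_le_of_le_one_right h3.le h6)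
      exact mem_iUnion₂.2 ⟨n, h8, Or.inl ⟨x, ⟨(n, k n x.1), h7, rfl⟩, rfl⟩⟩
    · have h : ε ≤ ν ((wt n * c n i) • (ev (b n i) F - ev (a n i) F)) := h
      rw [hν.smul_nonneg (mul_pos (wt_pos _) (hc n i).1).le] at h
      have h1 := hdiff (b n i) (a n i) F
      have h2 := hν.nonneg (ev (b n i) F - ev (a n i) F)
      have h3 := wt_pos n
      have h4 := (hc n i).1
      have h5 := (hc n i).2
      have h6 := wt_le n
      have h7 : ε / P0 ≤ wt n * c n i := by
        rw [div_le_iff₀ hP0']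
        refine h.trans (mul_le_mul_of_nonneg_left ?_ (mul_pos h3 h4).le)
        rw [hP0]; linarith
      have h8 : ε / P0 ≤ wt n := h7.trans (mul_le_of_le_one_right h3.le h5)
      refine mem_iUnion₂.2 ⟨n, h8, Or.inr ⟨i, ?_, rfl⟩⟩
      change ε ≤ c n i * ν (ev (b n i) F - ev (a n i) F)
      refine h.trans ?_
      rw [mul_assoc]
      exact mul_le_of_le_one_left (mul_nonneg h4.le h2) h6
  · intro F hF
    have hPF := hP.pos hF
    obtain ⟨z, hz⟩ := exists_PP hν F
    obtain ⟨n, l, rfl⟩ := hcov z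
    have hE : IsClosed {x : K | ν (ev x F) = PP (K := K) ν F} :=
      isClosed_eq (hν.continuous.comp (continuous_ev F)) continuous_const
    rcases hcat n C(Z, ℝ) _ inferInstance (fun x => ev x F) (continuous_ev F) _ hE ⟨l, hz⟩
      (by
        intro x x' h h'
        have h : ev (φ n x) F = ev (φ n x') F := h
        change ν (ev (φ n x') F) = _
        rw [← h]; exact h') with ⟨x, hx, hxE⟩ | ⟨i, hi1, hi2⟩
    · refine ⟨⟨n, Sum.inl ⟨x, hx⟩⟩, hxE, fun h0 => ?_⟩
      have h0 : (wt n * wt (k n x)) • ev x F = 0 := h0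
      have h1 : ev x F = 0 := (smul_eq_zero.1 h0).resolve_left
        (mul_pos (wt_pos _) (wt_pos _)).ne'
      have hxE : ν (ev x F) = PP (K := K) ν F := hxE
      rw [h1, hν.map_zero] at hxE
      exact hPF.ne hxE
    · refine ⟨⟨n, Sum.inr i⟩, hi1, fun h0 => hi2 ?_⟩
      have h0 : (wt n * c n i) • (ev (b n i) F - ev (a n i) F) = 0 := h0
      exact sub_eq_zero.1 ((smul_eq_zero.1 h0).resolve_left
        (mul_pos (wt_pos _) (hc n i).1).ne')

theorem ChainImages.hasC1_prod [Nonempty K] (hL : ChainImages K) (hK : Scattered K)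
    (h : HasC1 C(Z, ℝ)) : HasC1 C(K × Z, ℝ) := by
  obtain ⟨ν, hν, hν1⟩ := h
  obtain ⟨I, ⟨T⟩⟩ := exists_TSys (Z := Z) hK hL hν
  exact T.hasC1 hν hν1 (eqNorm_PP hν)

theorem ChainImages.hasPoly_prod [Nonempty K] (hL : ChainImages K) (hK : Scattered K)
    (h : HasPoly C(Z, ℝ)) : HasPoly C(K × Z, ℝ) := by
  obtain ⟨ν, hν, hν1⟩ := h
  obtain ⟨I, ⟨T⟩⟩ := exists_TSys (Z := Z) hK hL hν
  exact T.hasPoly hν hν1 (eqNorm_PP hν)

theorem ChainImages.hasC1_iff [Nonempty K] (hL : ChainImages K) :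
    HasC1 C(K, ℝ) ↔ Scattered K := by
  constructor
  · intro h
    by_contra hK
    exact not_hasC1 hK h
  · intro hK
    exact (hL.hasC1_prod hK hasC1_unit).comp (fstIso K Unit)

theorem ChainImages.hasPoly_iff [Nonempty K] (hL : ChainImages K) :
    HasPoly C(K, ℝ) ↔ Scattered K := by
  constructor
  · intro h
    by_contra hK
    exact not_hasPoly hK h
  · intro hK
    exact (hL.hasPoly_prod hK hasPoly_unit).comp (fstIso K Unit)

theorem ChainImages.hasC1_prod_iff [Nonempty K] [Nonempty Z] (hL : ChainImages K) :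
    HasC1 C(K × Z, ℝ) ↔ Scattered K ∧ HasC1 C(Z, ℝ) := by
  constructor
  · intro h
    refine ⟨?_, h.comp (sndIso K Z)⟩
    by_contra hK
    exact not_hasC1 hK (h.comp (fstIso K Z))
  · rintro ⟨hK, h⟩
    exact hL.hasC1_prod hK h

theorem ChainImages.hasPoly_prod_iff [Nonempty K] [Nonempty Z] (hL : ChainImages K) :
    HasPoly C(K × Z, ℝ) ↔ Scattered K ∧ HasPoly C(Z, ℝ) := by
  constructor
  · intro h
    refine ⟨?_, h.comp (sndIso K Z)⟩
    by_contra hK
    exact not_hasPoly hK (h.comp (fstIso K Z))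
  · rintro ⟨hK, h⟩
    exact hL.hasPoly_prod hK h

end Pool.Agent.helper41.RC
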