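import Pool.Agent.helper26.CK.Defs

/-!
# RC-Ord: in a scattered compact space closed sets have maxima for a suitable well-order
-/

set_option autoImplicit false

open Set Topology Filter

namespace Pool.Agent.helper41.RC

open Pool.Agent.helper26.CK

/-- points of Cantor-Bendixson rank less than `α` -/
def D (K : Type) [TopologicalSpace K] (α : Ordinal.{0}) : Set K :=
  {x | ∃ β, ∃ _ : β < α, ∃ U : Set K, IsOpen U ∧ x ∈ U ∧ U ⊆ insert x (D K β)}
termination_by α

variable {K : Type} [TopologicalSpace K]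

theorem mem_D {x : K} {α : Ordinal.{0}} :
    x ∈ D K α ↔ ∃ β < α, ∃ U : Set K, IsOpen U ∧ x ∈ U ∧ U ⊆ insert x (D K β) := by
  rw [D]
  simp only [mem_ofPred_eq, exists_prop]

theorem D_mono {α β : Ordinal.{0}} (h : α ≤ β) : D K α ⊆ D K β := by
  intro x hx
  rw [mem_D] at hx ⊢
  obtain ⟨γ, hγ, U, hU⟩ := hx
  exact ⟨γ, hγ.trans_le h, U, hU⟩

theorem exists_D (hK : Scattered K) (x : K) : ∃ α, x ∈ D K α := by
  classical
  by_contra hx
  push Not at hx
  obtain ⟨y, hy, U, hU, hUy⟩ := hK {y | ∀ α, y ∉ D K α} ⟨x, hx⟩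
  have h1 : ∀ z : K, ∃ α : Ordinal.{0}, z ∈ U → z ≠ y → z ∈ D K α := by
    intro z
    by_cases hz : z ∈ U ∧ z ≠ y
    · by_contra hc
      push Not at hc
      have : z ∈ U ∩ {y | ∀ α, y ∉ D K α} := ⟨hz.1, fun α => (hc α).2.2⟩
      rw [hUy] at this
      exact hz.2 this
    · exact ⟨0, fun a b => absurd ⟨a, b⟩ hz⟩
  choose f hf using h1
  have hyU : y ∈ U := by
    have : y ∈ U ∩ {y | ∀ α, y ∉ D K α} := by rw [hUy]; rfl
    exact this.1
  refine hy (Order.succ (⨆ z, f z)) ?_
  rw [mem_D]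
  refine ⟨⨆ z, f z, Order.lt_succ _, U, hU, hyU, fun z hz => ?_⟩
  by_cases hzy : z = y
  · exact Or.inl hzy
  · exact Or.inr (D_mono (le_ciSup (Ordinal.bddAbove_of_small) z) (hf z hz hzy))

/-- a scattered space has a well-order with open initial segments -/
theorem exists_idx (hK : Scattered K) :
    ∃ idx : K → Ordinal.{0}, Function.Injective idx ∧
      ∀ x, ∃ U, IsOpen U ∧ x ∈ U ∧ ∀ y ∈ U, idx y ≤ idx x := by
  classical
  let ρ : K → Ordinal.{0} := fun x => sInf {α | x ∈ D K α}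
  have hρ : ∀ x, x ∈ D K (ρ x) := fun x => csInf_mem (s := {α | x ∈ D K α}) (exists_D hK x)
  have hρ' : ∀ x α, x ∈ D K α → ρ x ≤ α := fun x α h => csInf_le' h
  let w : K → Ordinal.{0} := fun x => Ordinal.typein (WellOrderingRel (α := K)) x
  let κ : Ordinal.{0} := Ordinal.type (WellOrderingRel (α := K))
  have hw : ∀ x, w x < κ := fun x => Ordinal.typein_lt_type _ x
  have hwi : Function.Injective w := Ordinal.typein_injective _
  have hlt : ∀ x y, ρ x < ρ y → κ * ρ x + w x < κ * ρ y + w y := by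
    intro x y h
    calc κ * ρ x + w x < κ * ρ x + κ := by
          gcongr
          exact hw x
      _ = κ * Order.succ (ρ x) := (Ordinal.mul_succ _ _).symm
      _ ≤ κ * ρ y := by
          gcongr
          exact Order.succ_le_of_lt h
      _ ≤ κ * ρ y + w y := le_self_add
  refine ⟨fun x => κ * ρ x + w x, ?_, ?_⟩
  · intro x y h
    have h : κ * ρ x + w x = κ * ρ y + w y := h
    rcases lt_trichotomy (ρ x) (ρ y) with h1 | h1 | h1
    · exact absurd h (hlt x y h1).ne
    · rw [h1] at h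
      exact hwi (by simpa using h)
    · exact absurd h (hlt y x h1).ne'
  · intro x
    have := hρ x
    rw [mem_D] at this
    obtain ⟨β, hβ, U, hU, hx, hsub⟩ := this
    refine ⟨U, hU, hx, fun y hy => ?_⟩
    rcases hsub hy with h | h
    · rw [h]
    · exact (hlt y x ((hρ' y β h).trans_lt hβ)).le

/-- closed sets have maxima -/
theorem exists_max [CompactSpace K] {idx : K → Ordinal.{0}}
    (hidx : ∀ x, ∃ U, IsOpen U ∧ x ∈ U ∧ ∀ y ∈ U, idx y ≤ idx x) {C : Set K} (hC : IsClosed C)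
    (hne : C.Nonempty) : ∃ m ∈ C, ∀ x ∈ C, idx x ≤ idx m := by
  classical
  choose U hUo hUx hUle using hidx
  obtain ⟨t, htC, htcov⟩ := hC.isCompact.elim_nhds_subcover U
    (fun x _ => (hUo x).mem_nhds (hUx x))
  obtain ⟨c, hc⟩ := hne
  have htne : t.Nonempty := by
    have := htcov hc
    simp only [mem_iUnion] at this
    obtain ⟨i, hi, -⟩ := this
    exact ⟨i, hi⟩
  obtain ⟨m, hmt, hm⟩ := t.exists_max_image idx htne
  refine ⟨m, htC m hmt, fun x hx => ?_⟩
  have := htcov hx
  simp only [mem_iUnion] at this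
  obtain ⟨i, hi, hxi⟩ := this
  exact (hUle i x hxi).trans (hm i hi)

theorem isOpen_le {idx : K → Ordinal.{0}}
    (hidx : ∀ x, ∃ U, IsOpen U ∧ x ∈ U ∧ ∀ y ∈ U, idx y ≤ idx x) (η : Ordinal.{0}) :
    IsOpen {x | idx x ≤ η} := by
  rw [isOpen_iff_mem_nhds]
  intro x hx
  obtain ⟨U, hU, hxU, h⟩ := hidx x
  exact mem_of_superset (hU.mem_nhds hxU) fun y hy => (h y hy).trans hx

/-- an upper semicontinuous ordinal-valued function takes only countably many values on a
hereditarily Lindelöf set -/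
theorem countable_image {L : Type} [TopologicalSpace L] {M : Set L}
    (hM : IsHereditarilyLindelof M) (f : L → Ordinal.{0})
    (hf : ∀ z ∈ M, ∃ U ∈ 𝓝 z, ∀ z' ∈ U, f z' ≤ f z) : (f '' M).Countable := by
  classical
  have key : ∀ η : Ordinal.{0}, (f '' {z | z ∈ M ∧ f z < η}).Countable := by
    intro η
    induction η using WellFoundedLT.induction with
    | ind η ih =>
      have hl : IsLindelof {z | z ∈ M ∧ f z < η} := hM _ fun z hz => hz.1
      have hU : ∀ z : L, ∃ U : Set L, z ∈ {z | z ∈ M ∧ f z < η} → U ∈ 𝓝 z ∧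
          ∀ z' ∈ U, f z' ≤ f z := by
        intro z
        by_cases hz : z ∈ {z | z ∈ M ∧ f z < η}
        · obtain ⟨U, hU, h⟩ := hf z hz.1
          exact ⟨U, fun _ => ⟨hU, h⟩⟩
        · exact ⟨∅, fun h => absurd h hz⟩
      choose U hU using hU
      obtain ⟨t, htc, hts, hcov⟩ := hl.elim_nhds_subcover U fun z hz => (hU z hz).1
      have : f '' {z | z ∈ M ∧ f z < η} ⊆
          ⋃ z ∈ t, insert (f z) (f '' {z' | z' ∈ M ∧ f z' < f z}) := by
        rintro _ ⟨z, hz, rfl⟩
        have := hcov hz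
        simp only [mem_iUnion] at this
        obtain ⟨x, hx, hzx⟩ := this
        refine mem_iUnion₂.2 ⟨x, hx, ?_⟩
        rcases ((hU x (hts x hx)).2 z hzx).eq_or_lt with h | h
        · exact Or.inl h
        · exact Or.inr ⟨z, ⟨hz.1, h⟩, rfl⟩
      refine (htc.biUnion fun z hz => ?_).mono this
      exact (ih (f z) (hts z hz).2).insert _
  refine (key (Order.succ (⨆ z, f z))).mono ?_
  rintro _ ⟨z, hz, rfl⟩
  exact ⟨z, ⟨hz, Order.lt_succ_iff.2 (le_ciSup (Ordinal.bddAbove_of_small) z)⟩, rfl⟩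

/-- continuous images of hereditarily Lindelöf sets in scattered spaces are countable -/
theorem countable_image' {L : Type} [TopologicalSpace L] {M : Set L}
    (hM : IsHereditarilyLindelof M) {idx : K → Ordinal.{0}} (hinj : Function.Injective idx)
    (hidx : ∀ x, ∃ U, IsOpen U ∧ x ∈ U ∧ ∀ y ∈ U, idx y ≤ idx x) {ψ : L → K}
    (hψ : Continuous ψ) : (ψ '' M).Countable := by
  have h := countable_image hM (fun z => idx (ψ z)) (by
    intro z _
    obtain ⟨U, hU, hx, h⟩ := hidx (ψ z)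
    exact ⟨ψ ⁻¹' U, hψ.continuousAt.preimage_mem_nhds (hU.mem_nhds hx), fun z' hz' => h _ hz'⟩)
  have h2 : (fun z => idx (ψ z)) '' M = idx '' (ψ '' M) := by rw [image_image]
  rw [h2] at h
  exact (Set.countable_of_injective_of_countable_image hinj.injOn h)

end Pool.Agent.helper41.RC
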