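import Pool.Agent.helper41.RC.Chain
import Pool.Agent.helper26.CK.TSysP
import Pool.Agent.helper26.CK.Prod

/-!
# RC-Sys: the Talagrand system of a scattered image of a space with a chain of retractions
-/

set_option autoImplicit false

open Set Topology Filter

namespace Pool.Agent.helper41.RC

open Pool.Agent.helper26.CK

theorem finite_meet {L ι : Type} [TopologicalSpace L] {M : ι → Set L} {S N : Set L}
    (hS : IsCompact S) (hSN : ∀ x ∈ S, x ∉ N)
    (h : ∀ x ∉ N, ∃ U ∈ 𝓝 x, {j | (M j ∩ U).Nonempty}.Finite) : {j | (M j ∩ S).Nonempty}.Finite := by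
  refine hS.induction_on (p := fun s => {j | (M j ∩ s).Nonempty}.Finite) ?_ ?_ ?_ ?_
  · simp
  · intro s t hst ht
    exact ht.subset fun j hj => hj.mono (inter_subset_inter_right _ hst)
  · intro s t hs ht
    refine (hs.union ht).subset ?_
    rintro j ⟨x, hx, hx' | hx'⟩
    · exact Or.inl ⟨x, hx, hx'⟩
    · exact Or.inr ⟨x, hx, hx'⟩
  · intro x hx
    obtain ⟨U, hU, hfin⟩ := h x (hSN x hx)
    exact ⟨U, mem_nhdsWithin_of_mem_nhds hU, hfin⟩

/-- the weights -/
noncomputable def wt (n : ℕ) : ℝ := (1 / 2) ^ n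

theorem wt_pos (n : ℕ) : 0 < wt n := by unfold wt; positivity
theorem wt_le (n : ℕ) : wt n ≤ 1 := pow_le_one₀ (by norm_num) (by norm_num)

theorem wt_small {ε : ℝ} (hε : 0 < ε) : {n | ε ≤ wt n}.Finite := by
  obtain ⟨n0, hn0⟩ := exists_pow_lt_of_lt_one hε (by norm_num : (1 / 2 : ℝ) < 1)
  refine (finite_lt_nat n0).subset fun n hn => ?_
  have hn : ε ≤ wt n := hn
  by_contra hcon
  have : wt n ≤ (1 / 2) ^ n0 := pow_le_pow_of_le_one (by norm_num) (by norm_num) (not_lt.1 hcon)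
  linarith

theorem wt_mul_small {ε : ℝ} (hε : 0 < ε) : {p : ℕ × ℕ | ε ≤ wt p.1 * wt p.2}.Finite := by
  refine ((wt_small hε).prod (wt_small hε)).subset ?_
  rintro ⟨n, k⟩ h
  have h : ε ≤ wt n * wt k := h
  have h1 := wt_pos n
  have h2 := wt_pos k
  have h3 := wt_le n
  have h4 := wt_le k
  constructor
  · change ε ≤ wt n
    nlinarith
  · change ε ≤ wt k
    nlinarith

/-- the selection of the evaluation point -/
def sel {X : Type} (s : Fin 3) (p : X × X × X) : X :=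
  if s = 0 then p.1 else if s = 1 then p.2.1 else p.2.2

/-- the system of one image -/
theorem exists_sys {X L : Type} [TopologicalSpace X] [CompactSpace X] [T2Space X] [Nonempty X]
    [TopologicalSpace L] [CompactSpace L] [T2Space L] (hX : Scattered X) (R : RetrChain L)
    {φ : L → X} (hφ : Continuous φ) :
    ∃ (I : Type 1) (y a b : I → X) (c : I → ℝ) (B : Set X), B.Countable ∧
      (∀ i, 0 < c i ∧ c i ≤ 1) ∧
      (∀ g : X × X → ℝ, Continuous g → (∀ x, g (x, x) = 0) → (∀ p, 0 ≤ g p) →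
        (∀ u v w, g (u, w) ≤ g (u, v) + g (w, v)) → ∀ ε, 0 < ε →
          {i | ε ≤ c i * g (b i, a i)}.Finite) ∧
      ∀ (V : Type) (_ : TopologicalSpace V) (_ : T2Space V) (F : X → V) (_ : Continuous F)
        (E : Set X), IsClosed E → (∃ x, φ x ∈ E) →
        (∀ x y, F (φ x) = F (φ y) → φ x ∈ E → φ y ∈ E) →
          (∃ x ∈ B, x ∈ E) ∨ ∃ i, y i ∈ E ∧ F (b i) ≠ F (a i) := by
  classical
  obtain ⟨idx, hinj, hidx⟩ := exists_idx hX
  have hm0 : ∀ C : Set X, ∃ m : X, IsClosed C → C.Nonempty → m ∈ C ∧ ∀ x ∈ C, idx x ≤ idx m := by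
    intro C
    by_cases h : IsClosed C ∧ C.Nonempty
    · obtain ⟨m, h1, h2⟩ := exists_max hidx h.1 h.2
      exact ⟨m, fun _ _ => ⟨h1, h2⟩⟩
    · exact ⟨Classical.arbitrary X, fun h1 h2 => absurd ⟨h1, h2⟩ h⟩
  choose m hm using hm0
  choose J M hM1 hM2 hM3 using R.incr
  let f : Ordinal.{0} → L → X × X × X := fun α z =>
    (φ z, φ (R.r α z), m (φ '' {x | R.r α x = R.r α z}))
  let T : ∀ (α : Ordinal.{0}) (_ : ℕ) (_ : J α), Set (X × X × X) := fun α n j =>
    f α '' (M α n j ∩ range (R.r (Order.succ α)))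
  -- the sets of triples are countable
  have hT : ∀ α n j, (T α n j).Countable := by
    intro α n j
    have hH : IsHereditarilyLindelof (M α n j ∩ range (R.r (Order.succ α))) := fun t ht =>
      hM2 α n j t (ht.trans inter_subset_left)
    have c1 := countable_image' hH hinj hidx hφ
    have c2 := countable_image' hH hinj hidx (hφ.comp (R.cont α))
    have c3 : ((fun z => m (φ '' {x | R.r α x = R.r α z})) ''
        (M α n j ∩ range (R.r (Order.succ α)))).Countable := by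
      have h := countable_image hH (fun z => idx (m (φ '' {x | R.r α x = R.r α z}))) (by
        intro z _
        set η := idx (m (φ '' {x | R.r α x = R.r α z})) with hη
        have hcl : ∀ z, IsClosed (φ '' {x | R.r α x = R.r α z}) := fun z =>
          ((isClosed_eq (R.cont α) continuous_const).isCompact.image hφ).isClosed
        have hne : ∀ z, (φ '' {x | R.r α x = R.r α z}).Nonempty := fun z => ⟨φ z, z, rfl, rfl⟩
        let W : Set (L × L) := {p | R.r α p.1 = R.r α p.2} ∩ {p | φ p.1 ∈ {x | idx x ≤ η}ᶜ}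
        have hW : IsClosed W := by
          refine (isClosed_eq ((R.cont α).comp continuous_fst)
            ((R.cont α).comp continuous_snd)).inter ?_
          exact (isOpen_le hidx η).isClosed_compl.preimage (hφ.comp continuous_fst)
        have hW2 : IsClosed (Prod.snd '' W) := (hW.isCompact.image continuous_snd).isClosed
        refine ⟨(Prod.snd '' W)ᶜ, hW2.isOpen_compl.mem_nhds ?_, ?_⟩
        · rintro ⟨⟨u, v⟩, ⟨h1, h2⟩, h3⟩
          have h3 : v = z := h3
          subst h3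
          have h1 : R.r α u = R.r α v := h1
          exact h2 ((hm _ (hcl v) (hne v)).2 _ ⟨u, h1, rfl⟩)
        · intro z' hz'
          obtain ⟨u, hu, hue⟩ := (hm _ (hcl z') (hne z')).1
          rw [← hue]
          by_contra hcon
          exact hz' ⟨(u, z'), ⟨hu, hcon⟩, rfl⟩)
      have h2 : (fun z => idx (m (φ '' {x | R.r α x = R.r α z}))) ''
          (M α n j ∩ range (R.r (Order.succ α))) =
          idx '' ((fun z => m (φ '' {x | R.r α x = R.r α z})) ''
          (M α n j ∩ range (R.r (Order.succ α)))) := by rw [image_image]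
      rw [h2] at h
      exact Set.countable_of_injective_of_countable_image hinj.injOn h
    refine (c1.prod (c2.prod c3)).mono ?_
    rintro _ ⟨z, hz, rfl⟩
    exact ⟨⟨z, hz, rfl⟩, ⟨z, hz, rfl⟩, ⟨z, hz, rfl⟩⟩
  have hk : ∀ α n j, ∃ k : X × X × X → ℕ, InjOn k (T α n j) := fun α n j =>
    Set.countable_iff_exists_injOn.1 (hT α n j)
  choose k hk using hk
  refine ⟨{q : (Σ α : Ordinal.{0}, ℕ × J α × (X × X × X) × Fin 3) //
      q.2.2.2.1 ∈ T q.1 q.2.1 q.2.2.1}, fun q => sel q.1.2.2.2.2 q.1.2.2.2.1,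
    fun q => q.1.2.2.2.1.2.1, fun q => q.1.2.2.2.1.1,
    fun q => wt q.1.2.1 * wt (k q.1.1 q.1.2.1 q.1.2.2.1 q.1.2.2.2.1), φ '' range (R.r 0),
    countable_image' R.base hinj hidx hφ, ?_, ?_, ?_⟩
  · intro q
    have h1 := wt_pos q.1.2.1
    have h2 := wt_pos (k q.1.1 q.1.2.1 q.1.2.2.1 q.1.2.2.2.1)
    exact ⟨mul_pos h1 h2, mul_le_one₀ (wt_le _) h2.le (wt_le _)⟩
  · intro g hg hg0 hgn hgt ε hε
    obtain ⟨G, hG⟩ : ∃ G, ∀ p, g p ≤ G := by
      obtain ⟨G, hG⟩ := (isCompact_range hg).bddAbove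
      exact ⟨G, fun p => hG ⟨p, rfl⟩⟩
    have hG0 : 0 < max G 1 := lt_max_of_lt_right one_pos
    have hG' : ∀ p, g p ≤ max G 1 := fun p => (hG p).trans (le_max_left _ _)
    have hA := R.fin_jumps (g := fun p => g (φ p.1, φ p.2))
      (hg.comp (by fun_prop)) (fun a => hg0 _) (fun u v w => hgt _ _ _) hε
    have hP := wt_mul_small (ε := ε / max G 1) (by positivity)
    have hS : ∀ α, IsCompact {z | z ∈ range (R.r (Order.succ α)) ∧ ε ≤ g (φ z, φ (R.r α z))} := by
      intro α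
      have c1 := R.cont α
      refine IsClosed.isCompact ((isCompact_range (R.cont (Order.succ α))).isClosed.inter ?_)
      exact isClosed_le continuous_const (hg.comp (by fun_prop))
    have hJ : ∀ α n, {j | (M α n j ∩ {z | z ∈ range (R.r (Order.succ α)) ∧
        ε ≤ g (φ z, φ (R.r α z))}).Nonempty}.Finite := by
      intro α n
      refine finite_meet (hS α) ?_ (hM3 α n)
      rintro x ⟨-, hx⟩ hx2
      rw [R.r_of_range hx2, hg0] at hx
      linarith
    have hTf : ∀ α n j, {p | p ∈ T α n j ∧ k α n j p ∈ Prod.snd '' {p : ℕ × ℕ |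
        ε / max G 1 ≤ wt p.1 * wt p.2}}.Finite := by
      intro α n j
      refine Set.Finite.of_finite_image ((hP.image Prod.snd).subset ?_)
        ((hk α n j).mono fun p hp => hp.1)
      rintro _ ⟨p, hp, rfl⟩
      exact hp.2
    have hfin : (⋃ α ∈ {α | ∃ x, ε ≤ g (φ (R.r (Order.succ α) x), φ (R.r α x))},
        ⋃ n ∈ Prod.fst '' {p : ℕ × ℕ | ε / max G 1 ≤ wt p.1 * wt p.2},
        ⋃ j ∈ {j | (M α n j ∩ {z | z ∈ range (R.r (Order.succ α)) ∧
          ε ≤ g (φ z, φ (R.r α z))}).Nonempty},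
        ⋃ p ∈ {p | p ∈ T α n j ∧ k α n j p ∈ Prod.snd '' {p : ℕ × ℕ |
          ε / max G 1 ≤ wt p.1 * wt p.2}},
        range (fun s : Fin 3 => (⟨α, n, j, p, s⟩ :
          (Σ α : Ordinal.{0}, ℕ × J α × (X × X × X) × Fin 3)))).Finite :=
      hA.biUnion fun α _ => (hP.image _).biUnion fun n _ => (hJ α n).biUnion fun j _ =>
        (hTf α n j).biUnion fun p _ => finite_range _
    refine (hfin.preimage (f := (Subtype.val : {q : (Σ α : Ordinal.{0}, ℕ × J α × (X × X × X) ×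
      Fin 3) // q.2.2.2.1 ∈ T q.1 q.2.1 q.2.2.1} → _)) Subtype.val_injective.injOn).subset ?_
    rintro ⟨⟨α, n, j, p, s⟩, hp⟩ hq
    have hp : p ∈ T α n j := hp
    have hq : ε ≤ wt n * wt (k α n j p) * g (p.1, p.2.1) := hq
    have h1 := wt_pos n
    have h2 := wt_pos (k α n j p)
    have h3 := wt_le n
    have h4 := wt_le (k α n j p)
    have h5 := hG' (p.1, p.2.1)
    have h6 := hgn (p.1, p.2.1)
    have h7 : ε / max G 1 ≤ wt n * wt (k α n j p) := by
      rw [div_le_iff₀ hG0]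
      exact hq.trans (mul_le_mul_of_nonneg_left h5 (mul_pos h1 h2).le)
    have h8 : ε ≤ g (p.1, p.2.1) := by
      have : wt n * wt (k α n j p) ≤ 1 := mul_le_one₀ h3 h2.le h4
      nlinarith
    obtain ⟨z, ⟨hz1, hz2⟩, hz3⟩ := hp
    have h9 : ε ≤ g (φ z, φ (R.r α z)) := by
      rw [← hz3] at h8
      exact h8
    refine mem_iUnion₂.2 ⟨α, ⟨z, ?_⟩, mem_iUnion₂.2 ⟨n, ⟨(n, k α n j p), h7, rfl⟩,
      mem_iUnion₂.2 ⟨j, ⟨z, hz1, hz2, h9⟩, mem_iUnion₂.2 ⟨p, ⟨⟨z, ⟨hz1, hz2⟩, hz3⟩,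
        (n, k α n j p), h7, rfl⟩, s, rfl⟩⟩⟩⟩
    rw [R.r_of_range hz2]
    exact h9
  · intro V _ _ F hF E hE hne hsat
    rcases R.catching hinj hm hφ hF hE hne hsat with ⟨x, hx, hxE⟩ | ⟨α, z, hz1, hz2, hz3, hz4⟩
    · exact Or.inl ⟨φ x, ⟨x, hx, rfl⟩, hxE⟩
    · right
      obtain ⟨n, j, hzM⟩ := hM1 α z hz1 hz2
      have hmem : f α z ∈ T α n j := ⟨z, ⟨hzM, hz1⟩, rfl⟩
      rcases hz4 with h | h | h
      · exact ⟨⟨⟨α, n, j, f α z, 0⟩, hmem⟩, h, hz3⟩
      · exact ⟨⟨⟨α, n, j, f α z, 1⟩, hmem⟩, h, hz3⟩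
      · exact ⟨⟨⟨α, n, j, f α z, 2⟩, hmem⟩, h, hz3⟩

end Pool.Agent.helper41.RC
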