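import Pool.Agent.helper41.RC.Vald

/-!
# RC-Tal: Talagrand operators
-/

set_option autoImplicit false

open Set Topology Filter

namespace Pool.Agent.helper41.RC

open Pool.Agent.helper26.CK

/-- `C(K)` admits a Talagrand operator: a bounded linear operator `T : C(K) → c₀(K × I)` for some
set `I` such that for every `f ≠ 0` there are `x` and `i` with `|f x| = ‖f‖` and
`(T f)(x, i) ≠ 0` -/
def Talagrand (K : Type) [TopologicalSpace K] [CompactSpace K] : Prop :=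
  ∃ (I : Type 1) (T : K → I → C(K, ℝ) →ₗ[ℝ] ℝ) (M : ℝ), (∀ x i f, |T x i f| ≤ M * ‖f‖) ∧
    (∀ (f : C(K, ℝ)) (ε : ℝ), 0 < ε → {p : K × I | ε ≤ |T p.1 p.2 f|}.Finite) ∧
      ∀ f : C(K, ℝ), f ≠ 0 → ∃ x i, |f x| = ‖f‖ ∧ T x i f ≠ 0

/-- the weak form: a family of linear functionals `T x i` of `C(K)` such that for every `f ≠ 0`
the set of all `(x, i)` with `|f x| = ‖f‖` and `T x i f ≠ 0` is countable and nonempty -/
def WeakTalagrand (K : Type) [TopologicalSpace K] [CompactSpace K] : Prop :=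
  ∃ (I : Type 1) (T : K → I → C(K, ℝ) →ₗ[ℝ] ℝ),
    ∀ f : C(K, ℝ), f ≠ 0 → {p : K × I | |f p.1| = ‖f‖ ∧ T p.1 p.2 f ≠ 0}.Countable ∧
      {p : K × I | |f p.1| = ‖f‖ ∧ T p.1 p.2 f ≠ 0}.Nonempty

theorem Talagrand.weak {K : Type} [TopologicalSpace K] [CompactSpace K] (h : Talagrand K) :
    WeakTalagrand K := by
  obtain ⟨I, T, M, -, h2, h3⟩ := h
  refine ⟨I, T, fun f hf => ⟨?_, ?_⟩⟩
  · have h4 : {p : K × I | |f p.1| = ‖f‖ ∧ T p.1 p.2 f ≠ 0} ⊆
        ⋃ n : ℕ, {p : K × I | (1 / ((n : ℝ) + 1)) ≤ |T p.1 p.2 f|} := by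
      rintro p ⟨-, hp⟩
      obtain ⟨n, hn⟩ := exists_nat_one_div_lt (abs_pos.2 hp)
      exact mem_iUnion.2 ⟨n, hn.le⟩
    exact (countable_iUnion fun n => (h2 f _ (by positivity)).countable).mono h4
  · obtain ⟨x, i, hx, hi⟩ := h3 f hf
    exact ⟨(x, i), hx, hi⟩

/-- a free pair -/
theorem free_pair {α β : Type} {A : Set α} {B : Set β} (hA : Cardinal.aleph 1 < Cardinal.mk A)
    (hB : ¬ B.Countable) {C : α → Set β} {D : β → Set α} (hC : ∀ a ∈ A, (C a).Countable)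
    (hD : ∀ b ∈ B, (D b).Countable) : ∃ a ∈ A, ∃ b ∈ B, b ∉ C a ∧ a ∉ D b := by
  classical
  have h1 : Cardinal.aleph 1 ≤ Cardinal.mk B := by
    rw [Cardinal.aleph_one_le_iff]
    by_contra hcon
    exact hB (Cardinal.le_aleph0_iff_set_countable.1 (not_lt.1 hcon))
  obtain ⟨B0, hB0, hB0c⟩ := Cardinal.le_mk_iff_exists_subset.1 h1
  have h2 : Cardinal.mk (⋃ b ∈ B0, D b) ≤ Cardinal.aleph 1 := by
    refine (Cardinal.mk_biUnion_le D B0).trans ?_
    rw [hB0c]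
    have h3 : (⨆ x : B0, Cardinal.mk (D x.1)) ≤ Cardinal.aleph0 := by
      refine ciSup_le' fun x => ?_
      exact Cardinal.le_aleph0_iff_set_countable.2 (hD x.1 (hB0 x.2))
    calc Cardinal.aleph 1 * (⨆ x : B0, Cardinal.mk (D x.1))
        ≤ Cardinal.aleph 1 * Cardinal.aleph0 := by gcongr
      _ ≤ Cardinal.aleph 1 * Cardinal.aleph 1 := by
          gcongr
          exact Cardinal.aleph0_le_aleph 1
      _ = Cardinal.aleph 1 := Cardinal.mul_eq_self (Cardinal.aleph0_le_aleph 1)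
  obtain ⟨a, haA, haD⟩ : ∃ a ∈ A, a ∉ ⋃ b ∈ B0, D b := by
    by_contra hcon
    push Not at hcon
    have h4 : Cardinal.mk A ≤ Cardinal.mk (⋃ b ∈ B0, D b) := Cardinal.mk_le_mk_of_subset hcon
    exact absurd (h4.trans h2) (not_le.2 hA)
  obtain ⟨b, hbB, hbC⟩ : ∃ b ∈ B0, b ∉ C a := by
    by_contra hcon
    push Not at hcon
    have h5 : B0.Countable := (hC a haA).mono hcon
    have h6 := Cardinal.le_aleph0_iff_set_countable.2 h5
    rw [hB0c] at h6
    exact absurd h6 (not_le.2 Cardinal.aleph0_lt_aleph_one)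
  refine ⟨a, haA, b, hB0 hbB, hbC, fun h => haD ?_⟩
  exact mem_iUnion₂.2 ⟨b, hbB, h⟩

/-- the characteristic function of a clopen set -/
noncomputable def ind {L : Type} [TopologicalSpace L] (U : Set L) (hU : IsClopen U) : C(L, ℝ) :=
  ⟨U.indicator fun _ => 1, Continuous.indicator (by rw [hU.frontier_eq]; simp) continuous_const⟩

theorem ind_of_mem {L : Type} [TopologicalSpace L] {U : Set L} (hU : IsClopen U) {x : L}
    (hx : x ∈ U) : ind U hU x = 1 := by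
  change U.indicator (fun _ => (1 : ℝ)) x = 1
  exact indicator_of_mem hx _

theorem ind_of_notMem {L : Type} [TopologicalSpace L] {U : Set L} (hU : IsClopen U) {x : L}
    (hx : x ∉ U) : ind U hU x = 0 := by
  change U.indicator (fun _ => (1 : ℝ)) x = 0
  exact indicator_of_notMem hx _

theorem norm_ind {L : Type} [TopologicalSpace L] [CompactSpace L] {U : Set L} (hU : IsClopen U)
    (hne : U.Nonempty) : ‖ind U hU‖ = 1 := by
  obtain ⟨x, hx⟩ := hne
  refine le_antisymm ((ContinuousMap.norm_le _ zero_le_one).2 fun y => ?_) ?_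
  · by_cases hy : y ∈ U
    · rw [ind_of_mem hU hy]; simp
    · rw [ind_of_notMem hU hy]; simp
  · have := (ind U hU).norm_coe_le_norm x
    rw [ind_of_mem hU hx] at this
    simpa using this

/-- large products have no Talagrand operators -/
theorem not_weakTalagrand {K₁ K₂ : Type} [TopologicalSpace K₁] [CompactSpace K₁] [T2Space K₁]
    [TopologicalSpace K₂] [CompactSpace K₂] [T2Space K₂] {A : Set K₁} {B : Set K₂}
    (hA : ∀ a ∈ A, IsOpen ({a} : Set K₁)) (hB : ∀ b ∈ B, IsOpen ({b} : Set K₂))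
    (h : (Cardinal.aleph 1 < Cardinal.mk A ∧ ¬ B.Countable) ∨
      (¬ A.Countable ∧ Cardinal.aleph 1 < Cardinal.mk B)) : ¬ WeakTalagrand (K₁ × K₂) := by
  classical
  rintro ⟨I, T, hT⟩
  -- the slabs
  have hUc : ∀ a ∈ A, IsClopen (Prod.fst ⁻¹' {a} : Set (K₁ × K₂)) := fun a ha =>
    IsClopen.preimage ⟨isClosed_singleton, hA a ha⟩ continuous_fst
  have hVc : ∀ b ∈ B, IsClopen (Prod.snd ⁻¹' {b} : Set (K₁ × K₂)) := fun b hb =>
    IsClopen.preimage ⟨isClosed_singleton, hB b hb⟩ continuous_snd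
  let C : K₁ → Set K₂ := fun a => {b | ∃ (ha : a ∈ A) (i : I), T (a, b) i (ind _ (hUc a ha)) ≠ 0}
  let D : K₂ → Set K₁ := fun b => {a | ∃ (hb : b ∈ B) (i : I), T (a, b) i (ind _ (hVc b hb)) ≠ 0}
  have hne : ∀ (a : K₁) (b : K₂), (Prod.fst ⁻¹' {a} : Set (K₁ × K₂)).Nonempty ∧
      (Prod.snd ⁻¹' {b} : Set (K₁ × K₂)).Nonempty := fun a b => ⟨⟨(a, b), rfl⟩, ⟨(a, b), rfl⟩⟩
  have hnz : ∀ {U : Set (K₁ × K₂)} (hU : IsClopen U), U.Nonempty → ind U hU ≠ 0 := by
    intro U hU hUn h0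
    have h1 := norm_ind hU hUn
    rw [h0, norm_zero] at h1
    exact zero_ne_one h1
  have hCc : ∀ a ∈ A, (C a).Countable := by
    intro a ha
    by_cases hC : (C a).Nonempty
    · obtain ⟨b0, -⟩ := hC
      have h1 := (hT _ (hnz (hUc a ha) (hne a b0).1)).1
      refine (h1.image fun p => p.1.2).mono ?_
      rintro b ⟨_, i, hi⟩
      refine ⟨((a, b), i), ⟨?_, hi⟩, rfl⟩
      rw [norm_ind _ (hne a b0).1, ind_of_mem _ (show (a, b) ∈ Prod.fst ⁻¹' {a} from rfl), abs_one]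
    · rw [not_nonempty_iff_eq_empty.1 hC]
      exact countable_empty
  have hDc : ∀ b ∈ B, (D b).Countable := by
    intro b hb
    by_cases hD : (D b).Nonempty
    · obtain ⟨a0, -⟩ := hD
      have h1 := (hT _ (hnz (hVc b hb) (hne a0 b).2)).1
      refine (h1.image fun p => p.1.1).mono ?_
      rintro a ⟨_, i, hi⟩
      refine ⟨((a, b), i), ⟨?_, hi⟩, rfl⟩
      rw [norm_ind _ (hne a0 b).2, ind_of_mem _ (show (a, b) ∈ Prod.snd ⁻¹' {b} from rfl), abs_one]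
    · rw [not_nonempty_iff_eq_empty.1 hD]
      exact countable_empty
  obtain ⟨a, ha, b, hb, hbC, haD⟩ : ∃ a ∈ A, ∃ b ∈ B, b ∉ C a ∧ a ∉ D b := by
    rcases h with ⟨h1, h2⟩ | ⟨h1, h2⟩
    · exact free_pair h1 h2 hCc hDc
    · obtain ⟨b, hb, a, ha, h3, h4⟩ := free_pair h2 h1 hDc hCc
      exact ⟨a, ha, b, hb, h4, h3⟩
  -- the sum of the two slabs
  set f : C(K₁ × K₂, ℝ) := ind _ (hUc a ha) + ind _ (hVc b hb) with hf
  have hfx : ∀ x, x ≠ (a, b) → |f x| ≤ 1 := by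
    intro x hx
    rw [hf, ContinuousMap.add_apply]
    by_cases h1 : x ∈ (Prod.fst ⁻¹' {a} : Set (K₁ × K₂))
    · have h2 : x ∉ (Prod.snd ⁻¹' {b} : Set (K₁ × K₂)) := fun h2 => hx (Prod.ext h1 h2)
      rw [ind_of_mem _ h1, ind_of_notMem _ h2]; simp
    · rw [ind_of_notMem _ h1]
      by_cases h2 : x ∈ (Prod.snd ⁻¹' {b} : Set (K₁ × K₂))
      · rw [ind_of_mem _ h2]; simp
      · rw [ind_of_notMem _ h2]; simp
  have hfab : f (a, b) = 2 := by
    rw [hf, ContinuousMap.add_apply, ind_of_mem _ (show (a, b) ∈ Prod.fst ⁻¹' {a} from rfl),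
      ind_of_mem _ (show (a, b) ∈ Prod.snd ⁻¹' {b} from rfl)]
    norm_num
  have hf2 : 2 ≤ ‖f‖ := by
    have := f.norm_coe_le_norm (a, b)
    rw [hfab] at this
    simpa using this
  have hf0 : f ≠ 0 := by
    intro h0
    rw [h0, norm_zero] at hf2
    linarith
  obtain ⟨⟨x, i⟩, hx, hi⟩ := (hT f hf0).2
  have hx : |f x| = ‖f‖ := hx
  have hxab : x = (a, b) := by
    by_contra hne
    have := hfx x hne
    linarith
  subst hxab
  have hi : T (a, b) i f ≠ 0 := hi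
  apply hi
  rw [hf, map_add]
  have h1 : T (a, b) i (ind _ (hUc a ha)) = 0 := by
    by_contra h1
    exact hbC ⟨ha, i, h1⟩
  have h2 : T (a, b) i (ind _ (hVc b hb)) = 0 := by
    by_contra h2
    exact haD ⟨hb, i, h2⟩
  rw [h1, h2, add_zero]

end Pool.Agent.helper41.RC
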