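import Pool.Agent.helper41.RC.TalOne

/-!
# RC-TalIso: C(αΓ × αΔ) and the space of the continuous functions on the one-point
compactification of the disjoint union of Γ × Δ, Γ and Δ
-/

set_option autoImplicit false

open Set Topology Filter

namespace Pool.Agent.helper41.RC

open Pool.Agent.helper26.CK

/-- composition -/
noncomputable def cmp {X Y : Type} [TopologicalSpace X] [CompactSpace X] [TopologicalSpace Y]
    [CompactSpace Y] (φ : C(X, Y)) : C(Y, ℝ) →L[ℝ] C(X, ℝ) :=
  LinearMap.mkContinuous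
    { toFun := fun g => g.comp φ
      map_add' := fun _ _ => rfl
      map_smul' := fun _ _ => rfl } 1 (fun g => by
        rw [one_mul]
        exact (ContinuousMap.norm_le _ (norm_nonneg _)).2 fun x => g.norm_coe_le_norm (φ x))

theorem cmp_apply {X Y : Type} [TopologicalSpace X] [CompactSpace X] [TopologicalSpace Y]
    [CompactSpace Y] (φ : C(X, Y)) (g : C(Y, ℝ)) (x : X) : cmp φ g x = g (φ x) := rfl

section
variable {Γ Δ : Type}

/-- the collapsing map -/
def mul2 : OnePoint Γ → OnePoint Δ → OnePoint ((Γ × Δ) ⊕ Γ ⊕ Δ)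
  | OnePoint.some γ, OnePoint.some δ => OnePoint.some (Sum.inl (γ, δ))
  | _, _ => OnePoint.infty

theorem mul2_infty (x : OnePoint Γ) :
    mul2 x (OnePoint.infty : OnePoint Δ) = OnePoint.infty := by
  induction x using OnePoint.rec with
  | infty => rfl
  | coe γ => rfl

theorem infty_mul2 (y : OnePoint Δ) :
    mul2 (OnePoint.infty : OnePoint Γ) y = OnePoint.infty := by
  induction y using OnePoint.rec with
  | infty => rfl
  | coe γ => rfl

theorem mul2_coe (γ : Γ) (δ : Δ) : mul2 (γ : OnePoint Γ) (δ : OnePoint Δ) =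
    ((Sum.inl (γ, δ) : (Γ × Δ) ⊕ Γ ⊕ Δ) : OnePoint ((Γ × Δ) ⊕ Γ ⊕ Δ)) := rfl

variable [TopologicalSpace Γ] [DiscreteTopology Γ] [TopologicalSpace Δ] [DiscreteTopology Δ]

theorem continuous_mul2 :
    Continuous fun p : OnePoint Γ × OnePoint Δ => mul2 p.1 p.2 := by
  rw [continuous_iff_continuousAt]
  rintro ⟨x, y⟩
  have key : ∀ U ∈ 𝓝 (OnePoint.infty : OnePoint ((Γ × Δ) ⊕ Γ ⊕ Δ)),
      ∃ F : Set ((Γ × Δ) ⊕ Γ ⊕ Δ), F.Finite ∧ ∀ z, z ∉ F → (z : OnePoint ((Γ × Δ) ⊕ Γ ⊕ Δ)) ∈ U := by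
    intro U hU
    obtain ⟨t, ⟨-, ht⟩, htU⟩ := OnePoint.hasBasis_nhds_infty.mem_iff.1 hU
    exact ⟨t, ht.finite_of_discrete, fun z hz => htU (Or.inl ⟨z, hz, rfl⟩)⟩
  have key2 : ∀ {G : Type} [TopologicalSpace G] [DiscreteTopology G] (F : Set G), F.Finite →
      ((↑) '' F)ᶜ ∈ 𝓝 (OnePoint.infty : OnePoint G) := by
    intro G _ _ F hF
    refine IsOpen.mem_nhds ?_ OnePoint.infty_notMem_image_coe
    exact (hF.image _).isClosed.isOpen_compl
  have hmem : ∀ (p : OnePoint Γ × OnePoint Δ) (U : Set (OnePoint ((Γ × Δ) ⊕ Γ ⊕ Δ)))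
      (F : Set ((Γ × Δ) ⊕ Γ ⊕ Δ)), OnePoint.infty ∈ U →
      (∀ z, z ∉ F → (z : OnePoint ((Γ × Δ) ⊕ Γ ⊕ Δ)) ∈ U) →
      (∀ (γ : Γ) (δ : Δ), p = ((γ : OnePoint Γ), (δ : OnePoint Δ)) → Sum.inl (γ, δ) ∉ F) →
      mul2 p.1 p.2 ∈ U := by
    rintro ⟨u, v⟩ U F hU hF hp
    induction u using OnePoint.rec with
    | infty => rw [infty_mul2]; exact hU
    | coe γ =>
      induction v using OnePoint.rec with
      | infty => rw [mul2_infty]; exact hU
      | coe δ => rw [mul2_coe]; exact hF _ (hp γ δ rfl)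
  by_cases hx : x = OnePoint.infty
  · subst hx
    intro U hU
    change U ∈ 𝓝 (mul2 OnePoint.infty y) at hU
    rw [infty_mul2] at hU
    obtain ⟨F, hF, hFU⟩ := key U hU
    have h1 : Prod.fst ⁻¹' ((↑) '' {γ : Γ | ∃ δ, Sum.inl (γ, δ) ∈ F})ᶜ ∈
        𝓝 ((OnePoint.infty : OnePoint Γ), y) := by
      refine continuous_fst.continuousAt.preimage_mem_nhds (key2 _ ?_)
      have h2 : (Sum.inl ⁻¹' F : Set (Γ × Δ)).Finite := hF.preimage Sum.inl_injective.injOn
      refine (h2.image Prod.fst).subset ?_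
      rintro γ ⟨δ, h⟩
      exact ⟨(γ, δ), h, rfl⟩
    refine mem_map.2 (mem_of_superset h1 ?_)
    intro p hp
    refine hmem p U F (mem_of_mem_nhds hU) hFU ?_
    rintro γ δ rfl hF'
    exact hp ⟨γ, ⟨δ, hF'⟩, rfl⟩
  by_cases hy : y = OnePoint.infty
  · subst hy
    intro U hU
    change U ∈ 𝓝 (mul2 x OnePoint.infty) at hU
    rw [mul2_infty] at hU
    obtain ⟨F, hF, hFU⟩ := key U hU
    have h1 : Prod.snd ⁻¹' ((↑) '' {δ : Δ | ∃ γ, Sum.inl (γ, δ) ∈ F})ᶜ ∈
        𝓝 (x, (OnePoint.infty : OnePoint Δ)) := by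
      refine continuous_snd.continuousAt.preimage_mem_nhds (key2 _ ?_)
      have h2 : (Sum.inl ⁻¹' F : Set (Γ × Δ)).Finite := hF.preimage Sum.inl_injective.injOn
      refine (h2.image Prod.snd).subset ?_
      rintro δ ⟨γ, h⟩
      exact ⟨(γ, δ), h, rfl⟩
    refine mem_map.2 (mem_of_superset h1 ?_)
    intro p hp
    refine hmem p U F (mem_of_mem_nhds hU) hFU ?_
    rintro γ δ rfl hF'
    exact hp ⟨δ, ⟨γ, hF'⟩, rfl⟩
  · obtain ⟨γ, rfl⟩ := OnePoint.ne_infty_iff_exists.1 hx
    obtain ⟨δ, rfl⟩ := OnePoint.ne_infty_iff_exists.1 hy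
    intro U hU
    have h1 : ({(γ : OnePoint Γ)} ×ˢ {(δ : OnePoint Δ)} : Set (OnePoint Γ × OnePoint Δ)) ∈
        𝓝 ((γ : OnePoint Γ), (δ : OnePoint Δ)) :=
      ((isOpen_coe γ).prod (isOpen_coe δ)).mem_nhds ⟨rfl, rfl⟩
    refine mem_map.2 (mem_of_superset h1 ?_)
    rintro ⟨u, v⟩ ⟨hu, hv⟩
    have hu : u = γ := hu
    have hv : v = δ := hv
    rw [hu, hv]
    exact mem_of_mem_nhds (x := (fun p : OnePoint Γ × OnePoint Δ => mul2 p.1 p.2)
      ((γ : OnePoint Γ), (δ : OnePoint Δ))) hU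

theorem continuous_map_inj {G G' : Type} [TopologicalSpace G] [DiscreteTopology G]
    [TopologicalSpace G'] [DiscreteTopology G'] {f : G → G'} (hf : Function.Injective f) :
    Continuous (OnePoint.map f) := by
  rw [OnePoint.continuous_iff_from_discrete]
  refine (OnePoint.tendsto_coe_infty (X := G')).comp ?_
  rw [coclosedCompact_eq_cocompact, cocompact_eq_cofinite]
  exact hf.tendsto_cofinite

/-- the isomorphism of `C(αΓ × αΔ)` and `C(α((Γ × Δ) ⊔ Γ ⊔ Δ))` -/
theorem exists_iso (Γ Δ : Type) [TopologicalSpace Γ] [DiscreteTopology Γ] [TopologicalSpace Δ]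
    [DiscreteTopology Δ] :
    Nonempty (C(OnePoint ((Γ × Δ) ⊕ Γ ⊕ Δ), ℝ) ≃L[ℝ] C(OnePoint Γ × OnePoint Δ, ℝ)) := by
  let m : C(OnePoint Γ × OnePoint Δ, OnePoint ((Γ × Δ) ⊕ Γ ⊕ Δ)) :=
    ⟨fun p => mul2 p.1 p.2, continuous_mul2⟩
  let i1 : C(OnePoint Γ × OnePoint Δ, OnePoint ((Γ × Δ) ⊕ Γ ⊕ Δ)) :=
    ⟨fun p => OnePoint.map (fun γ => Sum.inr (Sum.inl γ)) p.1,
      (continuous_map_inj (Sum.inr_injective.comp Sum.inl_injective)).comp continuous_fst⟩
  let i2 : C(OnePoint Γ × OnePoint Δ, OnePoint ((Γ × Δ) ⊕ Γ ⊕ Δ)) :=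
    ⟨fun p => OnePoint.map (fun δ => Sum.inr (Sum.inr δ)) p.2,
      (continuous_map_inj (Sum.inr_injective.comp Sum.inr_injective)).comp continuous_snd⟩
  let i0 : C(OnePoint Γ × OnePoint Δ, OnePoint ((Γ × Δ) ⊕ Γ ⊕ Δ)) :=
    ⟨fun _ => OnePoint.infty, continuous_const⟩
  let T : C(OnePoint ((Γ × Δ) ⊕ Γ ⊕ Δ), ℝ) →L[ℝ] C(OnePoint Γ × OnePoint Δ, ℝ) :=
    cmp m + cmp i1 + cmp i2 - (2 : ℝ) • cmp i0
  have hT : ∀ g p, T g p = g (m p) + g (i1 p) + g (i2 p) - 2 * g OnePoint.infty := fun g p => rfl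
  have h00 : ∀ g, T g (OnePoint.infty, OnePoint.infty) = g OnePoint.infty := by
    intro g
    rw [hT]
    change g OnePoint.infty + g OnePoint.infty + g OnePoint.infty - 2 * g OnePoint.infty = _
    ring
  have h10 : ∀ g (γ : Γ), T g (γ, OnePoint.infty) =
      g ((Sum.inr (Sum.inl γ) : (Γ × Δ) ⊕ Γ ⊕ Δ) : OnePoint ((Γ × Δ) ⊕ Γ ⊕ Δ)) := by
    intro g γ
    rw [hT]
    change g OnePoint.infty +
      g ((Sum.inr (Sum.inl γ) : (Γ × Δ) ⊕ Γ ⊕ Δ) : OnePoint ((Γ × Δ) ⊕ Γ ⊕ Δ)) +
      g OnePoint.infty - 2 * g OnePoint.infty = _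
    ring
  have h01 : ∀ g (δ : Δ), T g (OnePoint.infty, δ) =
      g ((Sum.inr (Sum.inr δ) : (Γ × Δ) ⊕ Γ ⊕ Δ) : OnePoint ((Γ × Δ) ⊕ Γ ⊕ Δ)) := by
    intro g δ
    rw [hT]
    change g OnePoint.infty + g OnePoint.infty +
      g ((Sum.inr (Sum.inr δ) : (Γ × Δ) ⊕ Γ ⊕ Δ) : OnePoint ((Γ × Δ) ⊕ Γ ⊕ Δ)) -
      2 * g OnePoint.infty = _
    ring
  have h11 : ∀ g (γ : Γ) (δ : Δ), T g (γ, δ) =
      g ((Sum.inl (γ, δ) : (Γ × Δ) ⊕ Γ ⊕ Δ) : OnePoint ((Γ × Δ) ⊕ Γ ⊕ Δ)) +
      g ((Sum.inr (Sum.inl γ) : (Γ × Δ) ⊕ Γ ⊕ Δ) : OnePoint ((Γ × Δ) ⊕ Γ ⊕ Δ)) +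
      g ((Sum.inr (Sum.inr δ) : (Γ × Δ) ⊕ Γ ⊕ Δ) : OnePoint ((Γ × Δ) ⊕ Γ ⊕ Δ)) -
      2 * g OnePoint.infty := fun g γ δ => rfl
  have hinj : ∀ g, T g = 0 → g = 0 := by
    intro g hg
    have e00 := h00 g
    have e10 := h10 g
    have e01 := h01 g
    have e11 := h11 g
    rw [hg] at e00 e10 e01 e11
    simp only [ContinuousMap.zero_apply] at e00 e10 e01 e11
    ext z
    rw [ContinuousMap.zero_apply]
    induction z using OnePoint.rec with
    | infty => exact e00.symm
    | coe z =>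
      rcases z with ⟨γ, δ⟩ | γ | δ
      · have := e11 γ δ
        rw [← e00, ← e10 γ, ← e01 δ] at this
        linarith
      · exact (e10 γ).symm
      · exact (e01 δ).symm
  have hsurj : ∀ f, ∃ g, T g = f := by
    intro f
    let u : (Γ × Δ) ⊕ Γ ⊕ Δ → ℝ := fun z =>
      match z with
      | Sum.inl (γ, δ) => f (γ, δ) - f (γ, OnePoint.infty) - f (OnePoint.infty, δ) +
          2 * f (OnePoint.infty, OnePoint.infty)
      | Sum.inr (Sum.inl γ) => f (γ, OnePoint.infty)
      | Sum.inr (Sum.inr δ) => f (OnePoint.infty, δ)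
    have hu : Tendsto u cofinite (𝓝 (f (OnePoint.infty, OnePoint.infty))) := by
      rw [Metric.tendsto_nhds]
      intro ε hε
      rw [eventually_cofinite]
      have hA : {γ : Γ | ¬ dist (f (γ, OnePoint.infty))
          (f (OnePoint.infty, OnePoint.infty)) < ε}.Finite := by
        have h1 : Continuous fun x : OnePoint Γ => f (x, OnePoint.infty) :=
          f.continuous.comp (continuous_id.prodMk continuous_const)
        rw [OnePoint.continuous_iff_from_discrete, Metric.tendsto_nhds] at h1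
        exact eventually_cofinite.1 (h1 ε hε)
      have hB : {δ : Δ | ¬ dist (f (OnePoint.infty, δ))
          (f (OnePoint.infty, OnePoint.infty)) < ε}.Finite := by
        have h1 : Continuous fun x : OnePoint Δ => f (OnePoint.infty, x) :=
          f.continuous.comp (continuous_const.prodMk continuous_id)
        rw [OnePoint.continuous_iff_from_discrete, Metric.tendsto_nhds] at h1
        exact eventually_cofinite.1 (h1 ε hε)
      have hC : {p : Γ × Δ | ¬ dist (u (Sum.inl p))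
          (f (OnePoint.infty, OnePoint.infty)) < ε}.Finite := by
        let D : OnePoint Γ × OnePoint Δ → ℝ := fun p =>
          |f p - f (p.1, OnePoint.infty) - f (OnePoint.infty, p.2) +
            f (OnePoint.infty, OnePoint.infty)|
        have hD : Continuous D := by
          refine Continuous.abs ?_
          refine ((f.continuous.sub ?_).sub ?_).add continuous_const
          · exact f.continuous.comp (continuous_fst.prodMk continuous_const)
          · exact f.continuous.comp (continuous_const.prodMk continuous_snd)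
        have h1 := finite_meet (M := fun j : Γ × Δ =>
            ({((j.1 : OnePoint Γ), (j.2 : OnePoint Δ))} : Set (OnePoint Γ × OnePoint Δ)))
          (S := {p | ε ≤ D p}) (N := {p | p.1 = OnePoint.infty ∨ p.2 = OnePoint.infty})
          (isClosed_le continuous_const hD).isCompact (by
            rintro ⟨x, y⟩ hp hN
            have hp : ε ≤ D (x, y) := hp
            have h0 : D (x, y) = 0 := by
              rcases hN with h | h
              · have h : x = OnePoint.infty := h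
                rw [h]
                change |f (OnePoint.infty, y) - f (OnePoint.infty, OnePoint.infty) -
                  f (OnePoint.infty, y) + f (OnePoint.infty, OnePoint.infty)| = 0
                rw [abs_eq_zero]
                ring
              · have h : y = OnePoint.infty := h
                rw [h]
                change |f (x, OnePoint.infty) - f (x, OnePoint.infty) -
                  f (OnePoint.infty, OnePoint.infty) + f (OnePoint.infty, OnePoint.infty)| = 0
                rw [abs_eq_zero]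
                ring
            rw [h0] at hp
            linarith) (by
            rintro ⟨x, y⟩ hN
            have hx : x ≠ OnePoint.infty := fun h => hN (Or.inl h)
            have hy : y ≠ OnePoint.infty := fun h => hN (Or.inr h)
            obtain ⟨γ, rfl⟩ := OnePoint.ne_infty_iff_exists.1 hx
            obtain ⟨δ, rfl⟩ := OnePoint.ne_infty_iff_exists.1 hy
            refine ⟨{(γ : OnePoint Γ)} ×ˢ {(δ : OnePoint Δ)},
              ((isOpen_coe γ).prod (isOpen_coe δ)).mem_nhds ⟨rfl, rfl⟩,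
              (finite_singleton (γ, δ)).subset ?_⟩
            rintro ⟨γ', δ'⟩ ⟨z, hz, hz'⟩
            have hz : z = ((γ' : OnePoint Γ), (δ' : OnePoint Δ)) := hz
            rw [hz] at hz'
            have h3 : (γ' : OnePoint Γ) = γ := hz'.1
            have h4 : (δ' : OnePoint Δ) = δ := hz'.2
            rw [OnePoint.coe_injective h3, OnePoint.coe_injective h4]
            rfl)
        refine h1.subset ?_
        rintro ⟨γ, δ⟩ h
        refine ⟨((γ : OnePoint Γ), (δ : OnePoint Δ)), rfl, ?_⟩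
        have h : ¬ dist (u (Sum.inl (γ, δ))) (f (OnePoint.infty, OnePoint.infty)) < ε := h
        rw [not_lt, Real.dist_eq] at h
        change ε ≤ D (γ, δ)
        refine h.trans (le_of_eq ?_)
        change |f (γ, δ) - f (γ, OnePoint.infty) - f (OnePoint.infty, δ) +
          2 * f (OnePoint.infty, OnePoint.infty) - f (OnePoint.infty, OnePoint.infty)| =
          |f (γ, δ) - f (γ, OnePoint.infty) - f (OnePoint.infty, δ) +
            f (OnePoint.infty, OnePoint.infty)|
        congr 1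
        ring
      refine ((hC.image Sum.inl).union ((hA.image fun γ => Sum.inr (Sum.inl γ)).union
        (hB.image fun δ => Sum.inr (Sum.inr δ)))).subset ?_
      rintro (p | γ | δ) h
      · exact Or.inl ⟨p, h, rfl⟩
      · exact Or.inr (Or.inl ⟨γ, h, rfl⟩)
      · exact Or.inr (Or.inr ⟨δ, h, rfl⟩)
    refine ⟨OnePoint.continuousMapMkDiscrete u _ hu, ?_⟩
    ext ⟨x, y⟩
    induction x using OnePoint.rec with
    | infty =>
      induction y using OnePoint.rec with
      | infty => rw [h00]; rfl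
      | coe δ => rw [h01]; rfl
    | coe γ =>
      induction y using OnePoint.rec with
      | infty => rw [h10]; rfl
      | coe δ =>
        rw [h11]
        change f (γ, δ) - f (γ, OnePoint.infty) - f (OnePoint.infty, δ) +
          2 * f (OnePoint.infty, OnePoint.infty) + f (γ, OnePoint.infty) +
          f (OnePoint.infty, δ) - 2 * f (OnePoint.infty, OnePoint.infty) = f (γ, δ)
        ring
  exact ⟨ContinuousLinearEquiv.ofBijective T (LinearMap.ker_eq_bot'.2 hinj)
    (LinearMap.range_eq_top.2 hsurj)⟩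

end

end Pool.Agent.helper41.RC
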