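import Pool.Agent.helper41.RC.Vald

/-!
# RC-Tele: scattered compact spaces of weight at most `ℵ₁` are closed subspaces of scattered
compact spaces with chains of retractions
-/

set_option autoImplicit false

open Set Topology Filter

namespace Pool.Agent.helper41.RC

open Pool.Agent.helper26.CK

/-- isolated points of subsets of continuous images of scattered compact spaces -/
theorem exists_isolated {X K : Type} [TopologicalSpace X] [CompactSpace X] [T2Space X]
    [TopologicalSpace K] [T2Space K] (hX : Scattered X) {ψ : X → K} (hψ : Continuous ψ)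
    {A : Set K} (hA : A ⊆ range ψ) (hne : A.Nonempty) :
    ∃ y ∈ A, ∃ U : Set K, IsOpen U ∧ U ∩ A = {y} := by
  classical
  obtain ⟨idx, hinj, hidx⟩ := exists_idx hX
  have hcl : ∀ y, IsClosed (ψ ⁻¹' {y}) := fun y => isClosed_singleton.preimage hψ
  have hm : ∀ y : K, ∃ m : Ordinal.{0}, y ∈ A → (∀ x, ψ x = y → idx x ≤ m) ∧
      ∃ x, ψ x = y ∧ idx x = m := by
    intro y
    by_cases hy : y ∈ A
    · obtain ⟨x, hx⟩ := hA hy
      obtain ⟨z, hz, hmax⟩ := exists_max hidx (hcl y) ⟨x, hx⟩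
      exact ⟨idx z, fun _ => ⟨fun x hx => hmax x hx, z, hz, rfl⟩⟩
    · exact ⟨0, fun h => absurd h hy⟩
  choose m hm using hm
  obtain ⟨y, hyA, hmin⟩ := WellFounded.has_min (InvImage.wf m (wellFounded_lt (α := Ordinal.{0})))
    A hne
  refine ⟨y, hyA, (ψ '' {x | idx x ≤ m y}ᶜ)ᶜ, ?_, ?_⟩
  · have h1 : IsClosed {x | idx x ≤ m y}ᶜ := (isOpen_le hidx (m y)).isClosed_compl
    exact (h1.isCompact.image hψ).isClosed.isOpen_compl
  · ext y'
    simp only [mem_inter_iff, mem_compl_iff, mem_singleton_iff]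
    constructor
    · rintro ⟨h1, h2⟩
      obtain ⟨hle, x, hx, hxm⟩ := hm y' h2
      have h3 : idx x ≤ m y := by
        by_contra hcon
        exact h1 ⟨x, hcon, hx⟩
      rw [hxm] at h3
      have h4 : m y ≤ m y' := not_lt.1 (hmin y' h2)
      obtain ⟨-, x', hx', hxm'⟩ := hm y hyA
      have h5 : x = x' := hinj (by rw [hxm, hxm', le_antisymm h3 h4])
      rw [← hx, ← hx', h5]
    · rintro rfl
      refine ⟨?_, hyA⟩
      rintro ⟨x, hx, hxy⟩
      exact hx ((hm y' hyA).1 x hxy)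

/-- subspaces of powers of the line with at most `ℵ₁` coordinates have weight at most `ℵ₁` -/
theorem weightLe_subtype {Γ : Type} (hΓ : Cardinal.mk Γ ≤ Cardinal.aleph 1)
    (P : (Γ → ℝ) → Prop) : WeightLe {y : Γ → ℝ // P y} := by
  classical
  let b : Finset (Γ × ℚ × ℚ) → Set {y : Γ → ℝ // P y} := fun G =>
    {y | ∀ q ∈ G, (q.2.1 : ℝ) < y.1 q.1 ∧ y.1 q.1 < (q.2.2 : ℝ)}
  refine ⟨range b, ?_, ?_⟩
  · refine TopologicalSpace.isTopologicalBasis_of_isOpen_of_nhds ?_ ?_
    · rintro _ ⟨G, rfl⟩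
      have : b G = ⋂ q ∈ G, {y : {y : Γ → ℝ // P y} | (q.2.1 : ℝ) < y.1 q.1 ∧ y.1 q.1 < (q.2.2 : ℝ)} := by
        ext y
        simp only [mem_iInter]
        rfl
      rw [this]
      refine isOpen_biInter_finset fun q _ => ?_
      have hc : Continuous fun y : {y : Γ → ℝ // P y} => y.1 q.1 :=
        (continuous_apply _).comp continuous_subtype_val
      exact (isOpen_lt continuous_const hc).inter (isOpen_lt hc continuous_const)
    · intro y U hy hU
      obtain ⟨V, hV, rfl⟩ := isOpen_induced_iff.1 hU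
      obtain ⟨I, u, hu, huV⟩ := isOpen_pi_iff.1 hV _ hy
      have h3 : ∀ γ : Γ, ∃ q : ℚ × ℚ, γ ∈ I → (q.1 : ℝ) < y.1 γ ∧ y.1 γ < (q.2 : ℝ) ∧
          Ioo (q.1 : ℝ) q.2 ⊆ u γ := by
        intro γ
        by_cases hγ : γ ∈ I
        · have h4 := hu γ hγ
          obtain ⟨_, hv, h5, h6⟩ :=
            Real.isTopologicalBasis_Ioo_rat.exists_subset_of_mem_open h4.2 h4.1
          simp only [mem_iUnion, mem_singleton_iff] at hv
          obtain ⟨a, c, -, rfl⟩ := hv
          exact ⟨(a, c), fun _ => ⟨h5.1, h5.2, h6⟩⟩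
        · exact ⟨(0, 0), fun h => absurd h hγ⟩
      choose q hq using h3
      refine ⟨_, ⟨I.image fun γ => (γ, (q γ).1, (q γ).2), rfl⟩, ?_, ?_⟩
      · intro q' hq'
        obtain ⟨γ, hγ, rfl⟩ := Finset.mem_image.1 hq'
        exact ⟨(hq γ hγ).1, (hq γ hγ).2.1⟩
      · intro z hz
        refine huV fun γ hγ => ?_
        have h7 := hz (γ, (q γ).1, (q γ).2) (Finset.mem_image.2 ⟨γ, hγ, rfl⟩)
        exact (hq γ hγ).2.2 h7
  · refine Cardinal.mk_range_le.trans ?_
    have h1 : Cardinal.mk (Γ × ℚ × ℚ) ≤ Cardinal.aleph 1 := by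
      rw [Cardinal.mk_prod, Cardinal.lift_id, Cardinal.lift_id]
      calc Cardinal.mk Γ * Cardinal.mk (ℚ × ℚ) ≤ Cardinal.aleph 1 * Cardinal.aleph 1 := by
            gcongr
            exact (Cardinal.mk_le_aleph0 (α := ℚ × ℚ)).trans (Cardinal.aleph0_le_aleph 1)
        _ = Cardinal.aleph 1 := Cardinal.mul_eq_self (Cardinal.aleph0_le_aleph 1)
    rcases finite_or_infinite (Γ × ℚ × ℚ) with h | h
    · exact (Cardinal.mk_le_aleph0 (α := Finset (Γ × ℚ × ℚ))).trans (Cardinal.aleph0_le_aleph 1)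
    · rw [Cardinal.mk_finset_of_infinite]
      exact h1

/-- a separating family of functions indexed by a set of size at most `ℵ₁` -/
theorem exists_sep {X : Type} [TopologicalSpace X] [CompactSpace X] [T2Space X]
    (hw : WeightLe X) : ∃ (I : Type) (g : I → C(X, ℝ)), Cardinal.mk I ≤ Cardinal.aleph 1 ∧
      ∀ x y, (∀ i, g i x = g i y) → x = y := by
  classical
  obtain ⟨B, hB, hBc⟩ := hw
  have hg' : ∀ p : B × B, ∃ g : C(X, ℝ), Disjoint (closure p.1.1) (closure p.2.1) →
      (∀ x ∈ p.1.1, g x = 0) ∧ ∀ x ∈ p.2.1, g x = 1 := by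
    intro p
    by_cases hp : Disjoint (closure p.1.1) (closure p.2.1)
    · obtain ⟨g, h0, h1, -⟩ := exists_continuous_zero_one_of_isClosed isClosed_closure
        isClosed_closure hp
      exact ⟨g, fun _ => ⟨fun x hx => h0 (subset_closure hx), fun x hx => h1 (subset_closure hx)⟩⟩
    · exact ⟨0, fun h => absurd h hp⟩
  choose g hg1 using hg'
  refine ⟨B × B, g, ?_, ?_⟩
  · rw [Cardinal.mk_prod, Cardinal.lift_id]
    calc Cardinal.mk B * Cardinal.mk B ≤ Cardinal.aleph 1 * Cardinal.aleph 1 := by gcongr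
      _ = Cardinal.aleph 1 := Cardinal.mul_eq_self (Cardinal.aleph0_le_aleph 1)
  · intro x y hxy
    by_contra hne
    obtain ⟨U, hxU, hU, V, hyV, hV, hUV⟩ := exists_open_nhds_disjoint_closure hne
    obtain ⟨U', hU', hxU', hUU⟩ := hB.exists_subset_of_mem_open hxU hU
    obtain ⟨V', hV', hyV', hVV⟩ := hB.exists_subset_of_mem_open hyV hV
    have h1 := hg1 (⟨U', hU'⟩, ⟨V', hV'⟩) (hUV.mono (closure_mono hUU) (closure_mono hVV))
    have h2 := h1.1 _ hxU'
    have h3 := h1.2 _ hyV'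
    have h4 := hxy (⟨U', hU'⟩, ⟨V', hV'⟩)
    rw [h2, h3] at h4
    exact zero_ne_one h4

section tele
variable {X I : Type} [TopologicalSpace X]

/-- the characteristic functions of the initial segments -/
def Seg (f : I → Ordinal.{0}) : Set (I → ℝ) :=
  {s | ∀ i, (s i = 0 ∨ s i = 1) ∧ ∀ j, f i ≤ f j → s j ≤ s i}

/-- the parametrisation -/
def tmap (g : I → C(X, ℝ)) (x : X) (s : I → ℝ) : I ⊕ I → ℝ :=
  Sum.elim (fun i => s i * g i x) s

/-- the telescope -/
def TSet (f : I → Ordinal.{0}) (g : I → C(X, ℝ)) : Set (I ⊕ I → ℝ) :=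
  {y | ∃ x, ∃ s ∈ Seg f, tmap g x s = y}

theorem continuous_tmap (g : I → C(X, ℝ)) :
    Continuous fun p : X × (I → ℝ) => tmap g p.1 p.2 := by
  refine continuous_pi fun γ => ?_
  rcases γ with i | i
  · exact ((continuous_apply i).comp continuous_snd).mul ((g i).continuous.comp continuous_fst)
  · exact (continuous_apply i).comp continuous_snd

theorem isCompact_Seg (f : I → Ordinal.{0}) : IsCompact (Seg f) := by
  have h1 : Seg f ⊆ Set.pi univ fun _ : I => Icc (0 : ℝ) 1 := by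
    intro s hs i _
    rcases (hs i).1 with h | h
    · rw [h]; exact ⟨le_rfl, zero_le_one⟩
    · rw [h]; exact ⟨zero_le_one, le_rfl⟩
  refine (isCompact_univ_pi fun _ => isCompact_Icc).of_isClosed_subset ?_ h1
  have h2 : Seg f = ⋂ i : I, ({s | s i = 0} ∪ {s | s i = 1}) ∩
      ⋂ j : I, ⋂ _ : f i ≤ f j, {s | s j ≤ s i} := by
    ext s
    simp only [mem_iInter, mem_inter_iff, mem_union]
    rfl
  rw [h2]
  refine isClosed_iInter fun i => IsClosed.inter (IsClosed.union ?_ ?_) ?_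
  · exact isClosed_eq (continuous_apply i) continuous_const
  · exact isClosed_eq (continuous_apply i) continuous_const
  · exact isClosed_iInter fun j => isClosed_iInter fun _ =>
      isClosed_le (continuous_apply j) (continuous_apply i)

theorem isCompact_TSet [CompactSpace X] (f : I → Ordinal.{0}) (g : I → C(X, ℝ)) :
    IsCompact (TSet f g) := by
  have h1 : TSet f g = (fun p : X × (I → ℝ) => tmap g p.1 p.2) '' (univ ×ˢ Seg f) := by
    ext y
    constructor
    · rintro ⟨x, s, hs, rfl⟩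
      exact ⟨(x, s), ⟨mem_univ _, hs⟩, rfl⟩
    · rintro ⟨⟨x, s⟩, ⟨-, hs⟩, rfl⟩
      exact ⟨x, s, hs, rfl⟩
  rw [h1]
  exact (isCompact_univ.prod (isCompact_Seg f)).image (continuous_tmap g)

/-- the rank of a coordinate -/
def rk (f : I → Ordinal.{0}) : I ⊕ I → Ordinal.{0} := Sum.elim f f

theorem tele_good (f : I → Ordinal.{0}) (g : I → C(X, ℝ)) (A : Set (I ⊕ I))
    (hA : ∀ F : Finset (I ⊕ I), ↑F ⊆ A → {γ | ∃ γ' ∈ F, rk f γ ≤ rk f γ'} ⊆ A) :
    Good (TSet f g) A := by
  classical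
  have hA' : ∀ γ ∈ A, ∀ γ', rk f γ' ≤ rk f γ → γ' ∈ A := by
    intro γ hγ γ' h
    exact hA {γ} (by simpa using hγ) ⟨γ, by simp, h⟩
  rintro _ ⟨x, s, hs, rfl⟩
  refine ⟨x, {i | Sum.inr i ∈ A}.indicator s, ?_, ?_⟩
  · intro i
    refine ⟨?_, fun j hij => ?_⟩
    · by_cases hi : i ∈ {i | Sum.inr i ∈ A}
      · rw [indicator_of_mem hi]; exact (hs i).1
      · rw [indicator_of_notMem hi]; exact Or.inl rfl
    · by_cases hj : j ∈ {i | Sum.inr i ∈ A}
      · have hi : i ∈ {i | Sum.inr i ∈ A} := hA' _ hj (Sum.inr i) hij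
        rw [indicator_of_mem hj, indicator_of_mem hi]
        exact (hs i).2 j hij
      · rw [indicator_of_notMem hj]
        by_cases hi : i ∈ {i | Sum.inr i ∈ A}
        · rw [indicator_of_mem hi]
          rcases (hs i).1 with h | h
          · rw [h]
          · rw [h]; exact zero_le_one
        · rw [indicator_of_notMem hi]
  · funext γ
    rcases γ with i | i
    · by_cases hi : Sum.inr i ∈ A
      · have hi' : Sum.inl i ∈ A := hA' _ hi (Sum.inl i) le_rfl
        rw [indicator_of_mem hi']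
        change {i | Sum.inr i ∈ A}.indicator s i * g i x = s i * g i x
        rw [indicator_of_mem (show i ∈ {i | Sum.inr i ∈ A} from hi)]
      · have hi' : Sum.inl i ∉ A := fun h => hi (hA' _ h (Sum.inr i) le_rfl)
        rw [indicator_of_notMem hi']
        change {i | Sum.inr i ∈ A}.indicator s i * g i x = 0
        rw [indicator_of_notMem (show i ∉ {i | Sum.inr i ∈ A} from hi), zero_mul]
    · by_cases hi : Sum.inr i ∈ A
      · rw [indicator_of_mem hi]
        change {i | Sum.inr i ∈ A}.indicator s i = s i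
        rw [indicator_of_mem (show i ∈ {i | Sum.inr i ∈ A} from hi)]
      · rw [indicator_of_notMem hi]
        change {i | Sum.inr i ∈ A}.indicator s i = 0
        rw [indicator_of_notMem (show i ∉ {i | Sum.inr i ∈ A} from hi)]

theorem tele_scattered [CompactSpace X] [T2Space X] (hX : Scattered X) (f : I → Ordinal.{0})
    (g : I → C(X, ℝ)) (P : (I ⊕ I → ℝ) → Prop) :
    Scattered {y : I ⊕ I → ℝ // y ∈ TSet f g ∧ P y} := by
  classical
  intro A hA
  let B : {y : I ⊕ I → ℝ // y ∈ TSet f g ∧ P y} → Set Ordinal.{0} := fun y =>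
    {α | ∀ i, y.1 (Sum.inr i) = 1 → f i < α}
  have hB : ∀ y, sInf (B y) ∈ B y := fun y => csInf_mem ⟨Order.succ (⨆ i, f i), fun i _ =>
    Order.lt_succ_iff.2 (le_ciSup (Ordinal.bddAbove_of_small) i)⟩
  obtain ⟨y0, hy0, hmin⟩ := WellFounded.has_min
    (InvImage.wf (fun y => sInf (B y)) (wellFounded_lt (α := Ordinal.{0}))) A hA
  set b0 := sInf (B y0) with hb0
  -- the coordinates of the second kind
  have hseg : ∀ y : {y : I ⊕ I → ℝ // y ∈ TSet f g ∧ P y}, ∀ i,
      (y.1 (Sum.inr i) = 0 ∨ y.1 (Sum.inr i) = 1) ∧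
        ∀ j, f i ≤ f j → y.1 (Sum.inr j) ≤ y.1 (Sum.inr i) := by
    rintro ⟨_, ⟨x, s, hs, rfl⟩, -⟩ i
    exact hs i
  obtain ⟨U1, hU1, hyU1, hU1'⟩ : ∃ U1 : Set {y : I ⊕ I → ℝ // y ∈ TSet f g ∧ P y},
      IsOpen U1 ∧ y0 ∈ U1 ∧ ∀ y ∈ U1, sInf (B y) ≤ b0 := by
    by_cases h : ∃ i, b0 ≤ f i
    · obtain ⟨i0, hi0, hi0min⟩ := WellFounded.has_min
        (InvImage.wf f (wellFounded_lt (α := Ordinal.{0}))) {i | b0 ≤ f i} h
      refine ⟨{y | y.1 (Sum.inr i0) < 1 / 2}, ?_, ?_, ?_⟩
      · exact isOpen_lt ((continuous_apply _).comp continuous_subtype_val) continuous_const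
      · change y0.1 (Sum.inr i0) < 1 / 2
        rcases (hseg y0 i0).1 with h1 | h1
        · rw [h1]; norm_num
        · exact absurd (hB y0 i0 h1) (not_lt.2 hi0)
      · intro y hy
        refine csInf_le' ?_
        intro i hi
        by_contra hcon
        have h2 : f i0 ≤ f i := not_lt.1 (hi0min i (not_lt.1 hcon))
        have h3 := (hseg y i0).2 i h2
        have hy : y.1 (Sum.inr i0) < 1 / 2 := hy
        rw [hi] at h3
        linarith
    · push Not at h
      exact ⟨univ, isOpen_univ, mem_univ _, fun y _ => csInf_le' fun i _ => h i⟩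
  let s0 : I → ℝ := fun i => if f i < b0 then 1 else 0
  have hs0 : ∀ y ∈ A, y ∈ U1 → ∃ x, tmap g x s0 = y.1 := by
    intro y hyA hyU
    have h1 : sInf (B y) = b0 := le_antisymm (hU1' y hyU) (not_lt.1 (hmin y hyA))
    obtain ⟨_, ⟨x, s, hs, rfl⟩, hP⟩ := y
    refine ⟨x, ?_⟩
    have h2 : s0 = s := by
      funext i
      by_cases hi : f i < b0
      · simp only [s0, hi, if_true]
        rcases (hs i).1 with h | h
        · exfalso
          have h3 : f i ∈ B ⟨tmap g x s, ⟨x, s, hs, rfl⟩, hP⟩ := by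
            intro j hj
            by_contra hcon
            have h4 := (hs i).2 j (not_lt.1 hcon)
            have hj : s j = 1 := hj
            rw [h, hj] at h4
            linarith
          have h5 := csInf_le' h3
          rw [h1] at h5
          exact absurd hi (not_lt.2 h5)
        · exact h.symm
      · simp only [s0, hi, if_false]
        rcases (hs i).1 with h | h
        · exact h.symm
        · exfalso
          have h3 := hB ⟨tmap g x s, ⟨x, s, hs, rfl⟩, hP⟩ i h
          rw [h1] at h3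
          exact hi h3
    rw [h2]
  have hψ : Continuous fun x => tmap g x s0 :=
    (continuous_tmap g).comp (continuous_id.prodMk continuous_const)
  obtain ⟨z, ⟨y, ⟨hyA, hyU⟩, rfl⟩, U, hU, hUe⟩ := exists_isolated hX hψ
    (A := Subtype.val '' (A ∩ U1)) (by
      rintro _ ⟨y, ⟨hyA, hyU⟩, rfl⟩
      exact hs0 y hyA hyU) ⟨_, y0, ⟨hy0, hyU1⟩, rfl⟩
  refine ⟨y, hyA, Subtype.val ⁻¹' U ∩ U1, (hU.preimage continuous_subtype_val).inter hU1, ?_⟩
  ext y'
  constructor
  · rintro ⟨⟨h1, h2⟩, h3⟩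
    have : y'.1 ∈ U ∩ Subtype.val '' (A ∩ U1) := ⟨h1, y', ⟨h3, h2⟩, rfl⟩
    rw [hUe] at this
    exact Subtype.ext this
  · rintro rfl
    have : y'.1 ∈ U ∩ Subtype.val '' (A ∩ U1) := by rw [hUe]; rfl
    exact ⟨⟨this.1, hyU⟩, hyA⟩

end tele

/-- the embedding theorem -/
theorem exists_embedding {X : Type} [TopologicalSpace X] [CompactSpace X] [T2Space X] [Nonempty X]
    (hX : Scattered X) (hw : WeightLe X) : ∃ (K : Type) (_ : TopologicalSpace K)
      (_ : CompactSpace K) (_ : T2Space K) (ι : X → K), IsClosedEmbedding ι ∧ Scattered K ∧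
        WeightLe K ∧ ChainImages K := by
  classical
  obtain ⟨I, g, hI, hg⟩ := exists_sep hw
  obtain ⟨f, hf, hf2⟩ := exists_rank I hI
  let D : Finset (I ⊕ I) → Set (I ⊕ I) := fun F => {γ | ∃ γ' ∈ F, rk f γ ≤ rk f γ'}
  have hrk : ∀ γ, rk f γ < Ordinal.omega 1 := by
    rintro (i | i)
    · exact hf i
    · exact hf i
  have hDc : ∀ F, (D F).Countable := by
    intro F
    have h1 : D F = ⋃ γ' ∈ F, {γ | rk f γ ≤ rk f γ'} := by
      ext γ
      simp only [mem_iUnion]
      constructor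
      · rintro ⟨γ', h, h'⟩
        exact ⟨γ', h, h'⟩
      · rintro ⟨γ', h, h'⟩
        exact ⟨γ', h, h'⟩
    rw [h1]
    refine F.countable_toSet.biUnion fun γ' _ => ?_
    have h2 := hf2 (Order.succ (rk f γ'))
      ((Cardinal.isSuccLimit_omega 1).succ_lt (hrk γ'))
    refine ((h2.image Sum.inl).union (h2.image Sum.inr)).mono ?_
    rintro (i | i) hi
    · exact Or.inl ⟨i, show f i < _ from Order.lt_succ_iff.2 hi, rfl⟩
    · exact Or.inr ⟨i, show f i < _ from Order.lt_succ_iff.2 hi, rfl⟩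
  let C : I → Set (I ⊕ I) := fun i => {Sum.inl i, Sum.inr i}
  have hC : ∀ i, (C i).Countable := fun i => (countable_singleton _).insert _
  have hch := exists_chain (X := TSet f g) D hDc (fun A hA => tele_good f g A hA) C hC f hf hf2
  have huniv : clo D (⋃ i, C i) = univ := by
    refine eq_univ_of_forall fun γ => subset_clo D _ ?_
    rcases γ with i | i
    · exact mem_iUnion.2 ⟨i, Or.inl rfl⟩
    · exact mem_iUnion.2 ⟨i, Or.inr rfl⟩
  rw [huniv] at hch
  have hcomp : IsCompact {y : I ⊕ I → ℝ | y ∈ TSet f g ∧ ∀ γ ∉ (univ : Set (I ⊕ I)), y γ = 0} := by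
    have : {y : I ⊕ I → ℝ | y ∈ TSet f g ∧ ∀ γ ∉ (univ : Set (I ⊕ I)), y γ = 0} = TSet f g := by
      ext y
      constructor
      · exact fun h => h.1
      · exact fun h => ⟨h, fun γ hγ => absurd (mem_univ γ) hγ⟩
    rw [this]
    exact isCompact_TSet f g
  have hcs : CompactSpace {y : I ⊕ I → ℝ // y ∈ TSet f g ∧
      ∀ γ ∉ (univ : Set (I ⊕ I)), y γ = 0} := isCompact_iff_compactSpace.1 hcomp
  have hone : (fun _ => 1 : I → ℝ) ∈ Seg f := fun i => ⟨Or.inr rfl, fun j _ => le_rfl⟩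
  let ι : X → {y : I ⊕ I → ℝ // y ∈ TSet f g ∧ ∀ γ ∉ (univ : Set (I ⊕ I)), y γ = 0} := fun x =>
    ⟨tmap g x fun _ => 1, ⟨x, _, hone, rfl⟩, fun γ hγ => absurd (mem_univ γ) hγ⟩
  have hι : Continuous ι := Continuous.subtype_mk
    ((continuous_tmap g).comp (continuous_id.prodMk continuous_const)) _
  have hinj : Function.Injective ι := by
    intro x y hxy
    refine hg x y fun i => ?_
    have h1 := congrFun (congrArg Subtype.val hxy) (Sum.inl i)
    change 1 * g i x = 1 * g i y at h1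
    rwa [one_mul, one_mul] at h1
  refine ⟨_, inferInstance, hcs, inferInstance, ι, hι.isClosedEmbedding hinj,
    tele_scattered hX f g _, weightLe_subtype ?_ _, ?_⟩
  · rw [Cardinal.mk_sum, Cardinal.lift_id]
    calc Cardinal.mk I + Cardinal.mk I ≤ Cardinal.aleph 1 + Cardinal.aleph 1 := by gcongr
      _ = Cardinal.aleph 1 := Cardinal.add_eq_self (Cardinal.aleph0_le_aleph 1)
  · exact ⟨fun _ => _, fun _ => inferInstance, fun _ => id, fun _ => hcs, fun _ => inferInstance,
      fun _ => hch, fun _ => continuous_id, fun y => ⟨0, y, rfl⟩⟩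

end Pool.Agent.helper41.RC
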