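import Pool.Agent.helper41.RC.TalPos
import Pool.Agent.helper41.RC.Tele

/-!
# RC-TalOne: products of two one-point compactifications of discrete spaces
-/

set_option autoImplicit false

open Set Topology Filter

namespace Pool.Agent.helper41.RC

open Pool.Agent.helper26.CK

theorem hl_countable {L : Type} [TopologicalSpace L] {S : Set L} (hS : S.Countable) :
    IsHereditarilyLindelof S := fun _ ht => (hS.mono ht).isLindelof

theorem scattered_prod {K K' : Type} [TopologicalSpace K] [TopologicalSpace K']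
    (h : Scattered K) (h' : Scattered K') : Scattered (K × K') := by
  intro A hA
  obtain ⟨x, hx, U, hU, hUe⟩ := h (Prod.fst '' A) (hA.image _)
  obtain ⟨⟨x0, y0⟩, hxy, hx0⟩ := hx
  have hx0 : x0 = x := hx0
  subst hx0
  obtain ⟨y, hy, V, hV, hVe⟩ := h' {y | (x0, y) ∈ A} ⟨y0, hxy⟩
  refine ⟨(x0, y), hy, U ×ˢ V, hU.prod hV, ?_⟩
  ext ⟨u, v⟩
  constructor
  · rintro ⟨⟨hu, hv⟩, huv⟩
    have h1 : u ∈ U ∩ Prod.fst '' A := ⟨hu, (u, v), huv, rfl⟩
    rw [hUe] at h1
    have h1 : u = x0 := h1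
    subst h1
    have h2 : v ∈ V ∩ {y | (u, y) ∈ A} := ⟨hv, huv⟩
    rw [hVe] at h2
    have h2 : v = y := h2
    rw [h2]
    rfl
  · intro h3
    have h3 : (u, v) = (x0, y) := h3
    rw [h3]
    have h1 : x0 ∈ U ∩ Prod.fst '' A := by rw [hUe]; rfl
    have h2 : y ∈ V ∩ {y | (x0, y) ∈ A} := by rw [hVe]; rfl
    exact ⟨⟨h1.1, h2.1⟩, hy⟩

theorem isOpen_coe {Γ : Type} [TopologicalSpace Γ] [DiscreteTopology Γ] (γ : Γ) :
    IsOpen ({(γ : OnePoint Γ)} : Set (OnePoint Γ)) := by
  have h := (OnePoint.isOpenEmbedding_coe (X := Γ)).isOpenMap {γ} (isOpen_discrete _)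
  rwa [image_singleton] at h

theorem isClopen_coe {Γ : Type} [TopologicalSpace Γ] [DiscreteTopology Γ] (γ : Γ) :
    IsClopen ({(γ : OnePoint Γ)} : Set (OnePoint Γ)) := ⟨isClosed_singleton, isOpen_coe γ⟩

theorem scattered_onePoint (Γ : Type) [TopologicalSpace Γ] [DiscreteTopology Γ] :
    Scattered (OnePoint Γ) := by
  intro A hA
  by_cases h : ∃ γ : Γ, (γ : OnePoint Γ) ∈ A
  · obtain ⟨γ, hγ⟩ := h
    refine ⟨γ, hγ, {(γ : OnePoint Γ)}, isOpen_coe γ, ?_⟩
    exact inter_eq_left.2 (singleton_subset_iff.2 hγ)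
  · obtain ⟨x, hx⟩ := hA
    refine ⟨x, hx, univ, isOpen_univ, ?_⟩
    rw [univ_inter]
    have h1 : ∀ y ∈ A, y = OnePoint.infty := by
      intro y hy
      induction y using OnePoint.rec with
      | infty => rfl
      | coe γ => exact absurd ⟨γ, hy⟩ h
    exact eq_singleton_iff_unique_mem.2 ⟨hx, fun y hy => (h1 y hy).trans (h1 x hx).symm⟩

theorem chainImages_onePoint (Γ : Type) [TopologicalSpace Γ] [DiscreteTopology Γ] :
    ChainImages (OnePoint Γ) := by
  have hr : range (fun _ : OnePoint Γ => (OnePoint.infty : OnePoint Γ)) = {OnePoint.infty} :=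
    range_const
  have hcoe : ∀ x ∉ range (fun _ : OnePoint Γ => (OnePoint.infty : OnePoint Γ)),
      ∃ γ : Γ, x = γ := by
    intro x hx
    rw [hr] at hx
    induction x using OnePoint.rec with
    | infty => exact absurd rfl hx
    | coe γ => exact ⟨γ, rfl⟩
  refine chainImages_of_retraction (ρ := fun _ => OnePoint.infty) continuous_const
    (fun _ => rfl) (hl_countable (by rw [hr]; exact countable_singleton _))
    (fun γ : Γ => {(γ : OnePoint Γ)}) (fun γ => hl_countable (countable_singleton _)) ?_ ?_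
  · intro x hx
    obtain ⟨γ, rfl⟩ := hcoe x hx
    exact ⟨γ, rfl⟩
  · intro x hx
    obtain ⟨γ, rfl⟩ := hcoe x hx
    refine ⟨{(γ : OnePoint Γ)}, (isOpen_coe γ).mem_nhds rfl, (finite_singleton γ).subset ?_⟩
    rintro j ⟨y, hy, hy'⟩
    have hy : y = (j : OnePoint Γ) := hy
    have hy' : y = (γ : OnePoint Γ) := hy'
    exact OnePoint.coe_injective (hy.symm.trans hy')

theorem chainImages_prod_countable (Γ : Type) [TopologicalSpace Γ] [DiscreteTopology Γ]
    (Z : Type) [TopologicalSpace Z] [CompactSpace Z] [T2Space Z] [Countable Z] :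
    ChainImages (OnePoint Γ × Z) := by
  have hr : range (fun p : OnePoint Γ × Z => ((OnePoint.infty : OnePoint Γ), p.2)) ⊆
      {p | p.1 = OnePoint.infty} := by
    rintro _ ⟨p, rfl⟩
    rfl
  have hr' : ∀ p : OnePoint Γ × Z, p.1 = OnePoint.infty →
      p ∈ range (fun p : OnePoint Γ × Z => ((OnePoint.infty : OnePoint Γ), p.2)) := by
    intro p hp
    exact ⟨p, by change (OnePoint.infty, p.2) = p; rw [← hp]⟩
  have hcoe : ∀ x ∉ range (fun p : OnePoint Γ × Z => ((OnePoint.infty : OnePoint Γ), p.2)),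
      ∃ γ : Γ, x.1 = γ := by
    rintro ⟨x, z⟩ hx
    have hx' : x ≠ OnePoint.infty := fun h => hx (hr' _ h)
    induction x using OnePoint.rec with
    | infty => exact absurd rfl hx'
    | coe γ => exact ⟨γ, rfl⟩
  have hcount : ∀ x : OnePoint Γ, ({p : OnePoint Γ × Z | p.1 = x}).Countable := by
    intro x
    have h1 : {p : OnePoint Γ × Z | p.1 = x} = range fun z : Z => (x, z) := by
      ext ⟨u, z⟩
      constructor
      · intro h
        have h : u = x := h
        exact ⟨z, by rw [h]⟩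
      · rintro ⟨z', h⟩
        exact (congrArg Prod.fst h).symm
    rw [h1]
    exact countable_range _
  refine chainImages_of_retraction
    (ρ := fun p : OnePoint Γ × Z => ((OnePoint.infty : OnePoint Γ), p.2))
    (continuous_const.prodMk continuous_snd)
    (fun _ => rfl) (hl_countable ((hcount _).mono hr))
    (fun γ : Γ => {p | p.1 = (γ : OnePoint Γ)}) (fun γ => hl_countable (hcount _)) ?_ ?_
  · intro x hx
    exact hcoe x hx
  · intro x hx
    obtain ⟨γ, hγ⟩ := hcoe x hx
    refine ⟨Prod.fst ⁻¹' {(γ : OnePoint Γ)},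
      ((isOpen_coe γ).preimage continuous_fst).mem_nhds hγ, (finite_singleton γ).subset ?_⟩
    rintro j ⟨y, hy, hy'⟩
    have hy : y.1 = (j : OnePoint Γ) := hy
    have hy' : y.1 = (γ : OnePoint Γ) := hy'
    exact OnePoint.coe_injective (hy.symm.trans hy')

theorem WeightLe.of_inducing {K X : Type} [TopologicalSpace K] [TopologicalSpace X] {f : K → X}
    (hf : IsInducing f) (h : WeightLe X) : WeightLe K := by
  obtain ⟨B, hB, hBc⟩ := h
  exact ⟨_, hB.isInducing hf, Cardinal.mk_image_le.trans hBc⟩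

/-- the coordinates -/
noncomputable def crd (Γ Δ : Type) [TopologicalSpace Γ] [DiscreteTopology Γ]
    [TopologicalSpace Δ] [DiscreteTopology Δ] (p : OnePoint Γ × OnePoint Δ) : Γ ⊕ Δ → ℝ :=
  Sum.elim (fun γ => ind _ (isClopen_coe γ) p.1)
    (fun δ => ind _ (isClopen_coe δ) p.2)

theorem ind_coe_eq_zero {Γ : Type} [TopologicalSpace Γ] [DiscreteTopology Γ] (γ : Γ)
    (x : OnePoint Γ) : ind _ (isClopen_coe γ) x ≠ 0 ↔ x = γ := by
  constructor
  · intro h
    by_contra hne
    exact h (ind_of_notMem _ hne)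
  · intro h
    rw [ind_of_mem (isClopen_coe γ) (show x ∈ ({(γ : OnePoint Γ)} : Set (OnePoint Γ)) from h)]
    exact one_ne_zero

theorem onePoint_eq {Γ : Type} [TopologicalSpace Γ] [DiscreteTopology Γ] {x x' : OnePoint Γ}
    (h : ∀ γ : Γ, x = γ ↔ x' = γ) : x = x' := by
  induction x using OnePoint.rec with
  | infty =>
    induction x' using OnePoint.rec with
    | infty => rfl
    | coe γ => exact (h γ).2 rfl
  | coe γ => exact ((h γ).1 rfl).symm

theorem chainImages_prod_small {Γ Δ : Type} [TopologicalSpace Γ] [DiscreteTopology Γ]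
    [TopologicalSpace Δ] [DiscreteTopology Δ] (hΓ : Cardinal.mk Γ ≤ Cardinal.aleph 1)
    (hΔ : Cardinal.mk Δ ≤ Cardinal.aleph 1) : ChainImages (OnePoint Γ × OnePoint Δ) := by
  have hc : Continuous (crd Γ Δ) := by
    refine continuous_pi fun i => ?_
    rcases i with γ | δ
    · exact (ind _ (isClopen_coe γ)).continuous.comp continuous_fst
    · exact (ind _ (isClopen_coe δ)).continuous.comp continuous_snd
  have hi : Function.Injective (crd Γ Δ) := by
    rintro ⟨x, y⟩ ⟨x', y'⟩ h
    have h1 : x = x' := by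
      refine onePoint_eq fun γ => ?_
      have h2 : ind _ (isClopen_coe γ) x =
        ind _ (isClopen_coe γ) x' := congrFun h (Sum.inl γ)
      rw [← ind_coe_eq_zero γ x, ← ind_coe_eq_zero γ x', h2]
    have h2 : y = y' := by
      refine onePoint_eq fun γ => ?_
      have h2 : ind _ (isClopen_coe γ) y =
        ind _ (isClopen_coe γ) y' := congrFun h (Sum.inr γ)
      rw [← ind_coe_eq_zero γ y, ← ind_coe_eq_zero γ y', h2]
    rw [h1, h2]
  have hj : IsEmbedding (crd Γ Δ) := (hc.isClosedEmbedding hi).isEmbedding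
  have hw : WeightLe (OnePoint Γ × OnePoint Δ) := by
    refine WeightLe.of_inducing (X := range (crd Γ Δ)) hj.toHomeomorph.isInducing ?_
    refine weightLe_subtype ?_ (fun y => y ∈ range (crd Γ Δ))
    rw [Cardinal.mk_sum, Cardinal.lift_id, Cardinal.lift_id]
    calc Cardinal.mk Γ + Cardinal.mk Δ ≤ Cardinal.aleph 1 + Cardinal.aleph 1 := by gcongr
      _ = Cardinal.aleph 1 := Cardinal.add_eq_self (Cardinal.aleph0_le_aleph 1)
  refine chainImages_of_valdivia (L := OnePoint Γ × OnePoint Δ) hw ⟨Γ ⊕ Δ, crd Γ Δ, hj, ?_⟩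
    continuous_id Function.surjective_id
  have hall : {p : OnePoint Γ × OnePoint Δ | {i | crd Γ Δ p i ≠ 0}.Countable} = univ := by
    refine eq_univ_of_forall fun p => ?_
    have h1 : {i | crd Γ Δ p i ≠ 0} ⊆ Sum.inl '' {γ : Γ | p.1 = γ} ∪
        Sum.inr '' {δ : Δ | p.2 = δ} := by
      rintro (γ | δ) hi'
      · exact Or.inl ⟨γ, (ind_coe_eq_zero γ p.1).1 hi', rfl⟩
      · exact Or.inr ⟨δ, (ind_coe_eq_zero δ p.2).1 hi', rfl⟩
    have h2 : ∀ {G : Type} (x : OnePoint G), {γ : G | x = γ}.Countable := by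
      intro G x
      refine Set.Subsingleton.countable ?_
      intro a ha b hb
      exact OnePoint.coe_injective ((show x = a from ha).symm.trans hb)
    exact (((h2 p.1).image _).union ((h2 p.2).image _)).mono h1
  rw [hall]
  exact dense_univ

/-- the cardinality condition -/
def SmallPair (Γ Δ : Type) : Prop :=
  Cardinal.mk Γ ≤ Cardinal.aleph0 ∨ Cardinal.mk Δ ≤ Cardinal.aleph0 ∨
    (Cardinal.mk Γ ≤ Cardinal.aleph 1 ∧ Cardinal.mk Δ ≤ Cardinal.aleph 1)

theorem chainImages_prod {Γ Δ : Type} [TopologicalSpace Γ] [DiscreteTopology Γ]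
    [TopologicalSpace Δ] [DiscreteTopology Δ] (h : SmallPair Γ Δ) :
    ChainImages (OnePoint Γ × OnePoint Δ) := by
  rcases h with h | h | ⟨h, h'⟩
  · have h1 : Countable Γ := Cardinal.mk_le_aleph0_iff.1 h
    have h2 : Countable (OnePoint Γ) := inferInstanceAs (Countable (Option Γ))
    exact (chainImages_prod_countable Δ (OnePoint Γ)).image continuous_swap Prod.swap_surjective
  · have h1 : Countable Δ := Cardinal.mk_le_aleph0_iff.1 h
    have h2 : Countable (OnePoint Δ) := inferInstanceAs (Countable (Option Δ))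
    exact chainImages_prod_countable Γ (OnePoint Δ)
  · exact chainImages_prod_small h h'

theorem smallPair_of_weakTalagrand {Γ Δ : Type} [TopologicalSpace Γ] [DiscreteTopology Γ]
    [TopologicalSpace Δ] [DiscreteTopology Δ] (h : WeakTalagrand (OnePoint Γ × OnePoint Δ)) :
    SmallPair Γ Δ := by
  by_contra hcon
  unfold SmallPair at hcon
  push Not at hcon
  obtain ⟨h1, h2, h3⟩ := hcon
  have hA : ∀ (G : Type) [TopologicalSpace G] [DiscreteTopology G],
      ∀ a ∈ range ((↑) : G → OnePoint G), IsOpen ({a} : Set (OnePoint G)) := by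
    rintro G _ _ _ ⟨γ, rfl⟩
    exact isOpen_coe γ
  have hm : ∀ G : Type, Cardinal.mk (range ((↑) : G → OnePoint G)) = Cardinal.mk G := fun G =>
    Cardinal.mk_range_eq _ OnePoint.coe_injective
  have hcc : ∀ G : Type, Cardinal.aleph0 < Cardinal.mk G →
      ¬ (range ((↑) : G → OnePoint G)).Countable := by
    intro G hG hc
    have := Cardinal.le_aleph0_iff_set_countable.2 hc
    rw [hm] at this
    exact absurd this (not_le.2 hG)
  refine not_weakTalagrand (hA Γ) (hA Δ) ?_ h
  by_cases h4 : Cardinal.mk Γ ≤ Cardinal.aleph 1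
  · right
    exact ⟨hcc Γ h1, by rw [hm]; exact h3 h4⟩
  · left
    exact ⟨by rw [hm]; exact not_le.1 h4, hcc Δ h2⟩

end Pool.Agent.helper41.RC
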