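import Pool.Agent.helper41.RC.Tal

/-!
# RC-TalPos: Talagrand operators from chains of retractions
-/

set_option autoImplicit false

open Set Topology Filter

namespace Pool.Agent.helper41.RC

open Pool.Agent.helper26.CK

/-- evaluation -/
noncomputable def evl {K : Type} [TopologicalSpace K] [CompactSpace K] (x : K) :
    C(K, ℝ) →ₗ[ℝ] ℝ where
  toFun := fun f => f x
  map_add' := fun f g => rfl
  map_smul' := fun a f => rfl

theorem evl_apply {K : Type} [TopologicalSpace K] [CompactSpace K] (x : K) (f : C(K, ℝ)) :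
    evl x f = f x := rfl

theorem ChainImages.talagrand {K : Type} [TopologicalSpace K] [CompactSpace K] [T2Space K]
    [Nonempty K] (hL : ChainImages K) (hK : Scattered K) : Talagrand K := by
  classical
  obtain ⟨L, iT, φ, iC, iH, iR, hφ, hcov⟩ := hL
  have hsys := fun n => exists_sys hK (iR n).some (hφ n)
  choose I y a b c B hB hc hfin hcat using hsys
  have hk : ∀ n, ∃ k : K → ℕ, InjOn k (B n) := fun n => Set.countable_iff_exists_injOn.1 (hB n)
  choose k hk using hk
  let J : Type 1 := Σ n : ℕ, (B n) ⊕ (I n)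
  let pt : J → K := fun o =>
    match o with
    | ⟨_, Sum.inl x⟩ => x.1
    | ⟨n, Sum.inr i⟩ => y n i
  let fn : J → C(K, ℝ) →ₗ[ℝ] ℝ := fun o =>
    match o with
    | ⟨n, Sum.inl x⟩ => (wt n * wt (k n x.1)) • evl x.1
    | ⟨n, Sum.inr i⟩ => (wt n * c n i) • (evl (b n i) - evl (a n i))
  have hle : ∀ (f : C(K, ℝ)) (x : K), |f x| ≤ ‖f‖ := fun f x => f.norm_coe_le_norm x
  have hdiff : ∀ (f : C(K, ℝ)) (x x' : K), |f x - f x'| ≤ 2 * ‖f‖ := by
    intro f x x'
    have h1 := hle f x
    have h2 := hle f x'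
    have h3 := abs_sub (f x) (f x')
    linarith
  have hb1 : ∀ (n : ℕ) (x : B n), 0 < wt n * wt (k n x.1) ∧ wt n * wt (k n x.1) ≤ 1 := fun n x =>
    ⟨mul_pos (wt_pos _) (wt_pos _), mul_le_one₀ (wt_le _) (wt_pos _).le (wt_le _)⟩
  have hb2 : ∀ (n : ℕ) (i : I n), 0 < wt n * c n i ∧ wt n * c n i ≤ 1 := fun n i =>
    ⟨mul_pos (wt_pos _) (hc n i).1, mul_le_one₀ (wt_le _) (hc n i).1.le (hc n i).2⟩
  have hbd : ∀ (j : J) (f : C(K, ℝ)), |fn j f| ≤ 2 * ‖f‖ := by
    rintro ⟨n, x | i⟩ f
    · change |(wt n * wt (k n x.1)) * f x.1| ≤ _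
      rw [abs_mul, abs_of_pos (hb1 n x).1]
      have h1 := hle f x.1
      have h2 := abs_nonneg (f x.1)
      have h3 := (hb1 n x).2
      nlinarith
    · change |(wt n * c n i) * (f (b n i) - f (a n i))| ≤ _
      rw [abs_mul, abs_of_pos (hb2 n i).1]
      have h1 := hdiff f (b n i) (a n i)
      have h2 := abs_nonneg (f (b n i) - f (a n i))
      have h3 := (hb2 n i).2
      nlinarith
  have hfinJ : ∀ (f : C(K, ℝ)) (ε : ℝ), 0 < ε → {j : J | ε ≤ |fn j f|}.Finite := by
    intro f ε hε
    have hPF := norm_nonneg f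
    set P0 := 2 * ‖f‖ + 1 with hP0
    have hP0' : 0 < P0 := by rw [hP0]; linarith
    let g : K × K → ℝ := fun p => |f p.1 - f p.2|
    have hg : Continuous g := ((f.continuous.comp continuous_fst).sub
      (f.continuous.comp continuous_snd)).abs
    have hfin1 : ∀ n, {i | ε ≤ c n i * g (b n i, a n i)}.Finite := by
      intro n
      refine hfin n g hg ?_ ?_ ?_ ε hε
      · intro x
        change |f x - f x| = 0
        rw [sub_self, abs_zero]
      · intro p
        exact abs_nonneg _
      · intro u v w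
        change |f u - f w| ≤ |f u - f v| + |f w - f v|
        rw [abs_sub_comm (f w) (f v)]
        exact abs_sub_le _ _ _
    have hN := wt_small (ε := ε / P0) (by positivity)
    have hNN := wt_mul_small (ε := ε / P0) (by positivity)
    have hfin2 : ∀ n, {x : B n | k n x.1 ∈ Prod.snd '' {p : ℕ × ℕ |
        ε / P0 ≤ wt p.1 * wt p.2}}.Finite := by
      intro n
      refine Set.Finite.of_finite_image (f := fun x : B n => k n x.1)
        ((hNN.image Prod.snd).subset ?_) ?_
      · rintro _ ⟨p, hp, rfl⟩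
        exact hp
      · intro x _ x' _ h
        exact Subtype.ext (hk n x.2 x'.2 h)
    have hA : (⋃ n ∈ {n | ε / P0 ≤ wt n}, ((fun x : B n =>
        (⟨n, Sum.inl x⟩ : J)) '' {x : B n | k n x.1 ∈ Prod.snd '' {p : ℕ × ℕ |
        ε / P0 ≤ wt p.1 * wt p.2}}) ∪ ((fun i : I n => (⟨n, Sum.inr i⟩ : J)) ''
        {i | ε ≤ c n i * g (b n i, a n i)})).Finite :=
      hN.biUnion fun n _ => ((hfin2 n).image _).union ((hfin1 n).image _)
    refine hA.subset ?_
    rintro ⟨n, x | i⟩ h
    · have h : ε ≤ |(wt n * wt (k n x.1)) * f x.1| := h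
      rw [abs_mul, abs_of_pos (hb1 n x).1] at h
      have h1 := hle f x.1
      have h3 := wt_pos n
      have h4 := wt_pos (k n x.1)
      have h6 := wt_le (k n x.1)
      have h7 : ε / P0 ≤ wt n * wt (k n x.1) := by
        rw [div_le_iff₀ hP0']
        refine h.trans (mul_le_mul_of_nonneg_left ?_ (mul_pos h3 h4).le)
        rw [hP0]; linarith
      have h8 : ε / P0 ≤ wt n := h7.trans (mul_le_of_le_one_right h3.le h6)
      exact mem_iUnion₂.2 ⟨n, h8, Or.inl ⟨x, ⟨(n, k n x.1), h7, rfl⟩, rfl⟩⟩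
    · have h : ε ≤ |(wt n * c n i) * (f (b n i) - f (a n i))| := h
      rw [abs_mul, abs_of_pos (hb2 n i).1] at h
      have h1 := hdiff f (b n i) (a n i)
      have h2 := abs_nonneg (f (b n i) - f (a n i))
      have h3 := wt_pos n
      have h4 := (hc n i).1
      have h5 := (hc n i).2
      have h6 := wt_le n
      have h7 : ε / P0 ≤ wt n * c n i := by
        rw [div_le_iff₀ hP0']
        refine h.trans (mul_le_mul_of_nonneg_left ?_ (mul_pos h3 h4).le)
        rw [hP0]; linarith
      have h8 : ε / P0 ≤ wt n := h7.trans (mul_le_of_le_one_right h3.le h5)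
      refine mem_iUnion₂.2 ⟨n, h8, Or.inr ⟨i, ?_, rfl⟩⟩
      change ε ≤ c n i * |f (b n i) - f (a n i)|
      refine h.trans ?_
      rw [mul_assoc]
      exact mul_le_of_le_one_left (mul_nonneg h4.le h2) h6
  refine ⟨J, fun x j => if x = pt j then fn j else 0, 2, ?_, ?_, ?_⟩
  · intro x j f
    by_cases h : x = pt j
    · simp only [h, if_true]
      exact hbd j f
    · simp only [h, if_false]
      rw [LinearMap.zero_apply, abs_zero]
      positivity
  · intro f ε hε
    refine ((hfinJ f ε hε).image fun j => (pt j, j)).subset ?_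
    rintro ⟨x, j⟩ h
    by_cases hx : x = pt j
    · subst hx
      refine ⟨j, ?_, rfl⟩
      have h : ε ≤ |(if pt j = pt j then fn j else 0) f| := h
      rw [if_pos rfl] at h
      exact h
    · exfalso
      have h : ε ≤ |(if x = pt j then fn j else 0) f| := h
      rw [if_neg hx, LinearMap.zero_apply, abs_zero] at h
      linarith
  · intro f hf
    have hf' : 0 < ‖f‖ := norm_pos_iff.2 hf
    obtain ⟨z, -, hz⟩ := isCompact_univ.exists_isMaxOn (univ_nonempty : (univ : Set K).Nonempty)
      (f := fun x => |f x|) f.continuous.abs.continuousOn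
    have hz' : |f z| = ‖f‖ := le_antisymm (hle f z)
      ((ContinuousMap.norm_le _ (abs_nonneg _)).2 fun x => hz (mem_univ x))
    obtain ⟨n, l, rfl⟩ := hcov z
    have hE : IsClosed {x : K | |f x| = ‖f‖} := isClosed_eq f.continuous.abs continuous_const
    rcases hcat n ℝ _ inferInstance f f.continuous _ hE ⟨l, hz'⟩
      (by
        intro x x' h h'
        change |f (φ n x')| = _
        rw [← h]; exact h') with ⟨x, hx, hxE⟩ | ⟨i, hi1, hi2⟩
    · refine ⟨x, ⟨n, Sum.inl ⟨x, hx⟩⟩, hxE, ?_⟩
      change (if x = pt ⟨n, Sum.inl ⟨x, hx⟩⟩ then fn ⟨n, Sum.inl ⟨x, hx⟩⟩ else 0) f ≠ 0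
      rw [if_pos rfl]
      change (wt n * wt (k n x)) * f x ≠ 0
      refine mul_ne_zero (mul_pos (wt_pos _) (wt_pos _)).ne' fun h0 => ?_
      have hxE : |f x| = ‖f‖ := hxE
      rw [h0, abs_zero] at hxE
      exact hf'.ne hxE
    · refine ⟨y n i, ⟨n, Sum.inr i⟩, hi1, ?_⟩
      change (if y n i = pt ⟨n, Sum.inr i⟩ then fn ⟨n, Sum.inr i⟩ else 0) f ≠ 0
      rw [if_pos rfl]
      change (wt n * c n i) * (f (b n i) - f (a n i)) ≠ 0
      exact mul_ne_zero (mul_pos (wt_pos _) (hc n i).1).ne' (sub_ne_zero.2 hi2)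

theorem ChainImages.image {K K' : Type} [TopologicalSpace K] [TopologicalSpace K'] {π : K → K'}
    (hπ : Continuous π) (hs : Function.Surjective π) (h : ChainImages K) : ChainImages K' := by
  obtain ⟨L, iT, φ, iC, iH, iR, hφ, hcov⟩ := h
  refine ⟨L, iT, fun n => π ∘ φ n, iC, iH, iR, fun n => hπ.comp (hφ n), fun x => ?_⟩
  obtain ⟨y, rfl⟩ := hs x
  obtain ⟨n, l, hl⟩ := hcov y
  exact ⟨n, l, congrArg π hl⟩

/-- a chain of length two -/
theorem chainImages_of_retraction {L J : Type} [TopologicalSpace L] [CompactSpace L] [T2Space L]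
    {ρ : L → L} (hρ : Continuous ρ) (hρ2 : ∀ x, ρ (ρ x) = ρ x)
    (hbase : IsHereditarilyLindelof (range ρ)) (M : J → Set L)
    (hM : ∀ j, IsHereditarilyLindelof (M j)) (hcov : ∀ x ∉ range ρ, ∃ j, x ∈ M j)
    (hlf : ∀ x ∉ range ρ, ∃ U ∈ 𝓝 x, {j | (M j ∩ U).Nonempty}.Finite) : ChainImages L := by
  classical
  let r : Ordinal.{0} → L → L := fun α => if α = 0 then ρ else id
  have hr0 : r 0 = ρ := if_pos rfl
  have hr1 : ∀ α, α ≠ 0 → r α = id := fun α h => if_neg h
  have hR : RetrChain L :=
    { r := r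
      cont := by
        intro α
        by_cases h : α = 0
        · rw [h, hr0]; exact hρ
        · rw [hr1 α h]; exact continuous_id
      comm := by
        intro α β x
        by_cases h : α = 0
        · subst h
          have h1 : min (0 : Ordinal.{0}) β = 0 := min_eq_left bot_le
          rw [h1, hr0]
          by_cases h' : β = 0
          · rw [h', hr0, hρ2]
          · rw [hr1 β h']; rfl
        · by_cases h' : β = 0
          · subst h'
            have h1 : min α (0 : Ordinal.{0}) = 0 := min_eq_right bot_le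
            rw [h1, hr1 α h]; rfl
          · have h1 : min α β ≠ 0 := by
              rcases le_total α β with h2 | h2
              · rwa [min_eq_left h2]
              · rwa [min_eq_right h2]
            rw [hr1 α h, hr1 β h', hr1 _ h1]; rfl
      last := ⟨1, fun x => by rw [hr1 1 one_ne_zero]; rfl⟩
      lim := by
        intro δ hδ x U hU
        have h0 : (1 : Ordinal.{0}) < δ := by
          have := hδ.succ_lt hδ.bot_lt
          rwa [Ordinal.bot_eq_zero, Ordinal.succ_zero] at this
        refine ⟨1, h0, fun γ hγ _ => ?_⟩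
        have h1 : γ ≠ 0 := (zero_lt_one.trans_le hγ).ne'
        have h2 : δ ≠ 0 := (zero_lt_one.trans h0).ne'
        rw [hr1 δ h2] at hU
        rw [hr1 γ h1]
        exact mem_of_mem_nhds hU
      base := by rw [hr0]; exact hbase
      incr := by
        intro α
        by_cases h : α = 0
        · subst h
          rw [hr0]
          exact ⟨J, fun _ => M, fun z _ hz => ⟨0, hcov z hz⟩, fun _ => hM, fun _ => hlf⟩
        · refine ⟨Empty, fun _ => Empty.elim, fun z _ hz => ?_, fun _ j => j.elim, fun _ x _ =>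
            ⟨univ, univ_mem, Set.toFinite _⟩⟩
          exact absurd ⟨z, by rw [hr1 α h]; rfl⟩ hz }
  exact ⟨fun _ => L, fun _ => inferInstance, fun _ => id, fun _ => inferInstance,
    fun _ => inferInstance, fun _ => ⟨hR⟩, fun _ => continuous_id, fun x => ⟨0, x, rfl⟩⟩

end Pool.Agent.helper41.RC
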